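import Pool.Agent.W_4481_h69.KSnd
import Pool.Agent.W_4481e3_q25.GsAsm

/-!
The four leaf conditions of `GsAsm`.
-/

namespace Pool.Agent.W_4481_h69

open Pool.Agent.W_4481e3_h6.Ev Pool.Agent.W_4481e3_q25.EvR

theorem kloOK : KloOK := fun _ _ _ _ _ _ _ _ _ _ _ _ _ _ _ _ _ _ _ _ _ hη hω hπ h hk =>
  KSnd.klo_sound h hη hω hπ hk

theorem khiOK : KhiOK := fun _ _ _ _ _ _ _ _ _ _ _ _ _ _ _ _ _ _ _ _ _ hη hω hπ h hk =>
  KSnd.khi_sound h hη hω hπ hk

theorem kprOK : KprOK := by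
  intro P Q t dl ra η ω π W A G zv zp zq r zy zE zW R nW ny M hPQ hη hω hπ h hk
  refine KSnd.kpr_sound' h hη hω hπ hPQ ?_ hk
  unfold xsl
  apply Complex.ext <;> simp

theorem kpwOK : KpwOK := by
  intro A1 t dl η ω π W A G zv zp zq r zy zE zW R nW ny M hη hω hπ h hk b hb
  subst hπ
  exact KSnd.kpw_sound' h hη hω hk hb

/-- soundness of the slope leaves from the soundness of the chain -/
theorem gsOK_of_slc (hs : SlcOK) (K TAU A1 A2 : ℕ) : GsOK K TAU A1 A2 (gs A1 A2) :=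
  gsOK_of hs kloOK khiOK kprOK kpwOK K TAU A1 A2

end Pool.Agent.W_4481_h69
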