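import Pool.Agent.W_4481e3_q42.Close

/-!
Capture over a periodic base orbit.
-/

open Filter Topology

namespace Pool.Agent.W_4481_h69

open Pool.Agent.W_4481e3_q42

/-- the orbit of `Z` over `x` is not captured by `ε` or `-ε` -/
def NC (ε : ℂ) (x : ℝ) (Z : ℂ) : Prop :=
  ¬ Tendsto (orb (ε ^ 2) x Z) atTop (𝓝 ε) ∧ ¬ Tendsto (orb (ε ^ 2) x Z) atTop (𝓝 (-ε))

/-- one step towards the constant orbit `ζ`, `ζ ^ 2 = e` -/
lemma orb_step_le {e ζ Z : ℂ} {x : ℝ} (hζ : ζ ^ 2 = e) (j : ℕ) {c : ℝ}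
    (hc : Real.cos (2 * Real.pi * (2 ^ j * x)) = c) :
    ‖orb e x Z (j + 1) - ζ‖ ≤ ‖orb e x Z j - ζ‖ * (‖1 - 2 * (c : ℂ) * ζ‖ + |c| * ‖orb e x Z j - ζ‖) := by
  have h1 : orb e x Z (j + 1) - ζ =
      (orb e x Z j - ζ) * ((1 - 2 * (c : ℂ) * ζ) - c * (orb e x Z j - ζ)) := by
    rw [orb, hc, ← hζ]; ring
  rw [h1, norm_mul]
  gcongr
  refine (norm_sub_le _ _).trans ?_
  rw [norm_mul, Complex.norm_real, Real.norm_eq_abs]

/-- **Capture over a periodic base.**  `c` is the (periodic) sequence of cosines, `r` the radii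
of the trap along one period `L`, they must contract. -/
theorem trap_cycle {e ζ Z : ℂ} {x : ℝ} (hζ : ζ ^ 2 = e) {L : ℕ} {c : ℕ → ℝ}
    (hc : ∀ j, Real.cos (2 * Real.pi * (2 ^ j * x)) = c j) (hper : ∀ j, c (j + L) = c j)
    {r : ℕ → ℝ} {θ : ℝ} (hr0 : ∀ j, 0 ≤ r j)
    (hr : ∀ j < L, r j * (‖1 - 2 * (c j : ℂ) * ζ‖ + |c j| * r j) ≤ r (j + 1))
    (hθ0 : 0 ≤ θ) (hθ1 : θ < 1) (hL : r L ≤ θ * r 0) (hZ : ‖Z - ζ‖ ≤ r 0) :
    Tendsto (orb e x Z) atTop (𝓝 ζ) := by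
  have hper' : ∀ n j, c (n * L + j) = c j := by
    intro n j
    induction n with
    | zero => simp
    | succ n ih => rw [show (n + 1) * L + j = (n * L + j) + L by ring, hper, ih]
  -- the bound along the periods
  have key : ∀ n j, j ≤ L → ‖orb e x Z (n * L + j) - ζ‖ ≤ θ ^ n * r j := by
    intro n
    induction n with
    | zero =>
      intro j hj
      rw [zero_mul, zero_add, pow_zero, one_mul]
      induction j with
      | zero => simpa [orb] using hZ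
      | succ j ih =>
        have h1 := ih (by omega)
        refine (orb_step_le hζ j (hc j)).trans (le_trans ?_ (hr j (by omega)))
        have := hr0 j
        gcongr
    | succ n ihn =>
      intro j hj
      have hθn : θ ^ (n + 1) ≤ 1 := pow_le_one₀ hθ0 hθ1.le
      have hθn0 : 0 ≤ θ ^ (n + 1) := by positivity
      induction j with
      | zero =>
        have h1 := ihn L le_rfl
        rw [show (n + 1) * L + 0 = n * L + L by ring]
        refine h1.trans ?_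
        calc θ ^ n * r L ≤ θ ^ n * (θ * r 0) := by gcongr
          _ = θ ^ (n + 1) * r 0 := by rw [pow_succ]; ring
      | succ j ih =>
        have h1 := ih (by omega)
        rw [← add_assoc]
        have h2 := orb_step_le (Z := Z) hζ ((n + 1) * L + j) (hc _)
        rw [hper'] at h2
        refine h2.trans ?_
        have h0 := hr0 j
        calc ‖orb e x Z ((n + 1) * L + j) - ζ‖ * (‖1 - 2 * (c j : ℂ) * ζ‖ +
              |c j| * ‖orb e x Z ((n + 1) * L + j) - ζ‖)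
            ≤ (θ ^ (n + 1) * r j) * (‖1 - 2 * (c j : ℂ) * ζ‖ + |c j| * (1 * r j)) := by
              gcongr
              exact h1.trans (mul_le_mul_of_nonneg_right hθn h0)
          _ = θ ^ (n + 1) * (r j * (‖1 - 2 * (c j : ℂ) * ζ‖ + |c j| * r j)) := by ring
          _ ≤ θ ^ (n + 1) * r (j + 1) := by
              gcongr
              exact hr j (by omega)
  rcases Nat.eq_zero_or_pos L with h0 | hLpos
  · -- degenerate: `r 0 ≤ θ r 0` forces `r 0 = 0`
    subst h0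
    have h1 : r 0 = 0 := by
      have := hr0 0
      nlinarith
    have h2 : Z = ζ := by
      rw [h1] at hZ
      exact sub_eq_zero.1 (norm_le_zero_iff.1 hZ)
    have h3 : ∀ j, orb e x Z j = ζ := by
      intro j
      induction j with
      | zero => exact h2
      | succ j ih => rw [orb, ih, hζ]; ring
    exact tendsto_const_nhds.congr fun j => (h3 j).symm
  -- a common bound of the radii
  obtain ⟨M, hM0, hM⟩ : ∃ M, 0 ≤ M ∧ ∀ j ≤ L, r j ≤ M := by
    refine ⟨∑ j ∈ Finset.range (L + 1), r j, Finset.sum_nonneg fun j _ => hr0 j, fun j hj => ?_⟩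
    exact Finset.single_le_sum (f := r) (fun i _ => hr0 i) (Finset.mem_range.2 (by omega))
  rw [tendsto_iff_norm_sub_tendsto_zero]
  have hdiv : Tendsto (fun m : ℕ => m / L) atTop atTop := Nat.tendsto_div_const_atTop (by omega)
  have hb : Tendsto (fun m : ℕ => θ ^ (m / L) * M) atTop (𝓝 (0 * M)) :=
    ((tendsto_pow_atTop_nhds_zero_of_lt_one hθ0 hθ1).comp hdiv).mul_const M
  rw [zero_mul] at hb
  refine squeeze_zero (fun m => norm_nonneg _) (fun m => ?_) hb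
  have h1 := key (m / L) (m % L) (Nat.mod_lt _ hLpos).le
  rw [Nat.div_add_mod' m L] at h1
  refine h1.trans ?_
  gcongr
  exact hM _ (Nat.mod_lt _ hLpos).le

/-- a point in the trap of the periodic base is not `NC` -/
theorem not_nc_of_cycle {ε ζ Z : ℂ} {x : ℝ} (hζ : ζ = ε ∨ ζ = -ε) {L : ℕ} {c : ℕ → ℝ}
    (hc : ∀ j, Real.cos (2 * Real.pi * (2 ^ j * x)) = c j) (hper : ∀ j, c (j + L) = c j)
    {r : ℕ → ℝ} {θ : ℝ} (hr0 : ∀ j, 0 ≤ r j)
    (hr : ∀ j < L, r j * (‖1 - 2 * (c j : ℂ) * ζ‖ + |c j| * r j) ≤ r (j + 1))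
    (hθ0 : 0 ≤ θ) (hθ1 : θ < 1) (hL : r L ≤ θ * r 0) (hZ : ‖Z - ζ‖ ≤ r 0) : ¬ NC ε x Z := by
  have hζ2 : ζ ^ 2 = ε ^ 2 := by
    rcases hζ with h | h <;> rw [h]; ring
  have h1 := trap_cycle hζ2 hc hper hr0 hr hθ0 hθ1 hL hZ
  rintro ⟨h2, h3⟩
  rcases hζ with h | h
  · exact h2 (h ▸ h1)
  · exact h3 (h ▸ h1)

/-- cosines over the base `2 ^ p / 15` -/
lemma cos_base15 (p j : ℕ) : Real.cos (2 * Real.pi * (2 ^ j * (2 ^ p / 15))) = cc (p + j) := by
  unfold cc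
  congr 2
  rw [pow_add]; ring

lemma cc_add_four (p : ℕ) : cc (p + 4) = cc p := by
  unfold cc
  have : 2 * Real.pi * (2 ^ (p + 4) / 15) = 2 * Real.pi * (2 ^ p / 15) +
      ((2 ^ p : ℤ) : ℝ) * (2 * Real.pi) := by
    rw [pow_add]; push_cast; ring
  rw [this, Real.cos_add_int_mul_two_pi]

/-- **The trap of the `15`-cycle.** -/
theorem not_nc15 {ε Z : ℂ} {p : ℕ} {r0 r1 r2 r3 r4 θ : ℝ} (h0 : 0 ≤ r0) (h1 : 0 ≤ r1) (h2 : 0 ≤ r2)
    (h3 : 0 ≤ r3) (h4 : 0 ≤ r4)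
    (e0 : r0 * (‖1 - 2 * (cc p : ℂ) * ε‖ + |cc p| * r0) ≤ r1)
    (e1 : r1 * (‖1 - 2 * (cc (p + 1) : ℂ) * ε‖ + |cc (p + 1)| * r1) ≤ r2)
    (e2 : r2 * (‖1 - 2 * (cc (p + 2) : ℂ) * ε‖ + |cc (p + 2)| * r2) ≤ r3)
    (e3 : r3 * (‖1 - 2 * (cc (p + 3) : ℂ) * ε‖ + |cc (p + 3)| * r3) ≤ r4)
    (hθ0 : 0 ≤ θ) (hθ1 : θ < 1) (hL : r4 ≤ θ * r0) (hZ : ‖Z - ε‖ ≤ r0) :
    ¬ NC ε (2 ^ p / 15) Z := by
  refine not_nc_of_cycle (ζ := ε) (Or.inl rfl) (L := 4) (c := fun j => cc (p + j))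
    (fun j => cos_base15 p j) (fun j => ?_)
    (r := fun j => if j = 0 then r0 else if j = 1 then r1 else if j = 2 then r2 else
      if j = 3 then r3 else r4) (θ := θ) ?_ ?_ hθ0 hθ1 (by simpa using hL) (by simpa using hZ)
  · show cc (p + (j + 4)) = cc (p + j)
    rw [← add_assoc, cc_add_four]
  · intro j
    split_ifs <;> assumption
  · intro j hj
    interval_cases j
    · simpa using e0
    · simpa using e1
    · simpa using e2
    · simpa using e3

end Pool.Agent.W_4481_h69
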