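import Pool.Agent.W_4481_h69.RigK3
import Pool.Agent.W_4481e3_q25.Gain

/-!
The gain statement without hypotheses.
-/

namespace Pool.Agent.W_MP_4481e3_an

theorem rigK_holds : RigK :=
  fun _ _ h1 h2 h3 h4 _ h5 h6 h7 => Pool.Agent.W_4481_h69.rigK h1 h2 h3 h4 h5 h6 h7

theorem gain_all {α : ℂ} (hα0 : α ≠ 0) (hα : ‖α‖ < 1) (him : |α.im| < α.re) : GainStmt α :=
  gain_of_rigK rigK_holds hα0 hα him

end Pool.Agent.W_MP_4481e3_an
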