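import Mathlib

/-!
The escape rate (Green function) of `y ^ 2 + κ`, `‖κ‖ ≤ 1`.
-/

open Filter Topology Real Set

namespace Pool.Agent.W_4481_h69

/-- the quadratic map -/
def Q (κ y : ℂ) : ℂ := y ^ 2 + κ

/-- iterates -/
def Qn (κ : ℂ) : ℕ → ℂ → ℂ
  | 0, y => y
  | n + 1, y => Q κ (Qn κ n y)

lemma Qn_succ' (κ : ℂ) (n : ℕ) (y : ℂ) : Qn κ (n + 1) y = Qn κ n (Q κ y) := by
  induction n with
  | zero => rfl
  | succ n ih => rw [Qn, ih, Qn]

lemma Qn_cont (κ : ℂ) (n : ℕ) : Continuous (Qn κ n) := by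
  induction n with
  | zero => exact continuous_id
  | succ n ih => exact (ih.pow 2).add continuous_const

lemma Qn_diff (κ : ℂ) (n : ℕ) : Differentiable ℂ (Qn κ n) := by
  induction n with
  | zero => exact differentiable_id
  | succ n ih => exact (ih.pow 2).add_const κ

lemma posLog_step {κ w : ℂ} (hκ : ‖κ‖ ≤ 1) :
    |posLog ‖Q κ w‖ - 2 * posLog ‖w‖| ≤ Real.log 2 := by
  have hl2 : 0 < Real.log 2 := Real.log_pos (by norm_num)
  have hw := norm_nonneg w
  have hup : ‖Q κ w‖ ≤ ‖w‖ ^ 2 + 1 := by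
    unfold Q
    refine (norm_add_le _ _).trans ?_
    rw [norm_pow]; linarith
  have hlo : ‖w‖ ^ 2 - 1 ≤ ‖Q κ w‖ := by
    unfold Q
    have := norm_sub_le_norm_add (w ^ 2) κ
    rw [norm_pow] at this
    linarith
  rcases le_or_gt ‖w‖ 1 with h | h
  · have e : posLog ‖w‖ = 0 := by rw [posLog_eq_zero_iff, abs_of_nonneg hw]; exact h
    rw [e, mul_zero, sub_zero, abs_of_nonneg posLog_nonneg]
    have : ‖Q κ w‖ ≤ 2 := by nlinarith
    refine (posLog_le_posLog (norm_nonneg _) this).trans ?_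
    rw [posLog_eq_log (by norm_num)]
  · have e : posLog ‖w‖ = Real.log ‖w‖ := posLog_eq_log (by rw [abs_of_nonneg hw]; exact h.le)
    have h3 : ‖Q κ w‖ ≤ ‖w‖ ^ 2 * 2 := by nlinarith
    have hpos : 0 < ‖w‖ := by linarith
    have e2 : 2 * Real.log ‖w‖ = Real.log (‖w‖ ^ 2) := by rw [Real.log_pow]; norm_num
    rw [e, e2, abs_le]
    constructor
    · rcases le_or_gt (‖w‖ ^ 2) 2 with h5 | h5
      · have h6 : Real.log (‖w‖ ^ 2) ≤ Real.log 2 := Real.log_le_log (by positivity) h5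
        have h7 : 0 ≤ posLog ‖Q κ w‖ := posLog_nonneg
        linarith
      · have h2 : ‖w‖ ^ 2 / 2 ≤ ‖Q κ w‖ := by linarith
        have h4 : posLog (‖w‖ ^ 2 / 2) ≤ posLog ‖Q κ w‖ := posLog_le_posLog (by positivity) h2
        have h5 : Real.log (‖w‖ ^ 2 / 2) ≤ posLog (‖w‖ ^ 2 / 2) := by
          rw [posLog_apply]; exact le_max_right _ _
        rw [Real.log_div (by positivity) (by norm_num)] at h5
        linarith
    · have h4 : posLog ‖Q κ w‖ ≤ posLog (‖w‖ ^ 2 * 2) := posLog_le_posLog (norm_nonneg _) h3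
      rw [posLog_eq_log (x := ‖w‖ ^ 2 * 2) (by rw [abs_of_nonneg (by positivity)]; nlinarith),
        Real.log_mul (by positivity) (by norm_num)] at h4
      linarith

/-- approximants -/
noncomputable def Gs (κ : ℂ) (n : ℕ) (y : ℂ) : ℝ := posLog ‖Qn κ n y‖ / 2 ^ n

lemma Gs_cont (κ : ℂ) (n : ℕ) : Continuous (Gs κ n) := by
  unfold Gs
  exact (continuous_posLog.comp (Qn_cont κ n).norm).div_const _

lemma Gs_nonneg (κ : ℂ) (n : ℕ) (y : ℂ) : 0 ≤ Gs κ n y := by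
  unfold Gs; exact div_nonneg posLog_nonneg (by positivity)

lemma Gs_dist {κ : ℂ} (hκ : ‖κ‖ ≤ 1) (n : ℕ) (y : ℂ) :
    dist (Gs κ n y) (Gs κ (n + 1) y) ≤ (Real.log 2 / 2) / 2 ^ n := by
  have h := posLog_step (w := Qn κ n y) hκ
  rw [Real.dist_eq, abs_sub_comm]
  have e : Gs κ (n + 1) y - Gs κ n y =
      (posLog ‖Q κ (Qn κ n y)‖ - 2 * posLog ‖Qn κ n y‖) / 2 ^ (n + 1) := by
    unfold Gs
    rw [show Qn κ (n + 1) y = Q κ (Qn κ n y) from rfl, pow_succ]
    field_simp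
  rw [e, abs_div, abs_of_pos (a := (2:ℝ) ^ (n + 1)) (by positivity), pow_succ, div_div]
  rw [show (2:ℝ) * 2 ^ n = 2 ^ n * 2 by ring]
  gcongr

/-- the escape rate -/
noncomputable def G (κ y : ℂ) : ℝ := limUnder atTop (fun n => Gs κ n y)

lemma G_tendsto {κ : ℂ} (hκ : ‖κ‖ ≤ 1) (y : ℂ) :
    Tendsto (fun n => Gs κ n y) atTop (𝓝 (G κ y)) :=
  (cauchySeq_of_le_geometric_two (C := Real.log 2) (fun n => by
    have := Gs_dist hκ n y
    simpa using this)).tendsto_limUnder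

lemma G_dist {κ : ℂ} (hκ : ‖κ‖ ≤ 1) (n : ℕ) (y : ℂ) :
    |Gs κ n y - G κ y| ≤ Real.log 2 / 2 ^ n := by
  have := dist_le_of_le_geometric_two_of_tendsto (C := Real.log 2) (f := fun n => Gs κ n y)
    (fun n => by
      have := Gs_dist hκ n y
      simpa using this) (G_tendsto hκ y) n
  rw [Real.dist_eq] at this
  exact this

lemma G_nonneg {κ : ℂ} (hκ : ‖κ‖ ≤ 1) (y : ℂ) : 0 ≤ G κ y :=
  ge_of_tendsto' (G_tendsto hκ y) fun n => Gs_nonneg κ n y

lemma G_Q {κ : ℂ} (hκ : ‖κ‖ ≤ 1) (y : ℂ) : G κ (Q κ y) = 2 * G κ y := by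
  have h1 := G_tendsto hκ (Q κ y)
  have h2 := ((G_tendsto hκ y).comp (tendsto_add_atTop_nat 1)).const_mul 2
  refine tendsto_nhds_unique h1 (h2.congr fun n => ?_)
  simp only [Function.comp_apply]
  unfold Gs
  rw [Qn_succ', pow_succ]
  field_simp

lemma G_Qn {κ : ℂ} (hκ : ‖κ‖ ≤ 1) (n : ℕ) (y : ℂ) : G κ (Qn κ n y) = 2 ^ n * G κ y := by
  induction n with
  | zero => simp [Qn]
  | succ n ih => rw [Qn, G_Q hκ, ih, pow_succ]; ring

lemma G_cont {κ : ℂ} (hκ : ‖κ‖ ≤ 1) : Continuous (G κ) := by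
  have hu : TendstoUniformly (fun n => Gs κ n) (G κ) atTop := by
    rw [Metric.tendstoUniformly_iff]
    intro ε hε
    have h1 : Tendsto (fun n : ℕ => Real.log 2 / 2 ^ n) atTop (𝓝 0) := by
      have := (tendsto_pow_atTop_nhds_zero_of_lt_one (r := (1/2:ℝ)) (by norm_num)
        (by norm_num)).const_mul (Real.log 2)
      rw [mul_zero] at this
      refine this.congr fun n => ?_
      rw [div_pow, one_pow]; ring
    filter_upwards [h1.eventually (gt_mem_nhds hε)] with n hn y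
    rw [dist_comm, Real.dist_eq]
    exact (G_dist hκ n y).trans_lt hn
  exact hu.continuous (Frequently.of_forall fun n => Gs_cont κ n)

lemma G_zero_of_bdd {κ : ℂ} (hκ : ‖κ‖ ≤ 1) {y : ℂ} {R : ℝ} (h : ∀ n, ‖Qn κ n y‖ ≤ R) :
    G κ y = 0 := by
  refine tendsto_nhds_unique (G_tendsto hκ y) ?_
  have h1 : Tendsto (fun n : ℕ => posLog R / 2 ^ n) atTop (𝓝 0) := by
    have := (tendsto_pow_atTop_nhds_zero_of_lt_one (r := (1/2:ℝ)) (by norm_num)
      (by norm_num)).const_mul (posLog R)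
    rw [mul_zero] at this
    refine this.congr fun n => ?_
    rw [div_pow, one_pow]; ring
  refine squeeze_zero (fun n => Gs_nonneg κ n y) (fun n => ?_) h1
  unfold Gs
  exact div_le_div_of_nonneg_right (posLog_le_posLog (norm_nonneg _) (h n)) (by positivity)

lemma G_sub_posLog {κ : ℂ} (hκ : ‖κ‖ ≤ 1) (y : ℂ) : |posLog ‖y‖ - G κ y| ≤ Real.log 2 := by
  have := G_dist hκ 0 y
  simpa [Gs, Qn] using this

/-- exact asymptotics at infinity -/
lemma G_sub_log {κ : ℂ} (hκ : ‖κ‖ ≤ 1) {y : ℂ} (hy : 2 ≤ ‖y‖) :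
    |Real.log ‖y‖ - G κ y| ≤ 2 / ‖y‖ ^ 2 := by
  have hbig : ∀ n, ‖y‖ ≤ ‖Qn κ n y‖ := by
    intro n
    induction n with
    | zero => simp [Qn]
    | succ n ih =>
      rw [Qn, Q]
      have := norm_sub_le_norm_add (Qn κ n y ^ 2) κ
      rw [norm_pow] at this
      nlinarith
  set a : ℕ → ℝ := fun n => Gs κ n y with ha
  have hstep : ∀ n, dist (a n) (a (n + 1)) ≤ (2 / ‖y‖ ^ 2) / 2 / 2 ^ n := by
    intro n
    set w := Qn κ n y with hw
    have hwn := hbig n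
    rw [← hw] at hwn
    have hw0 : w ≠ 0 := by
      intro h0; rw [h0, norm_zero] at hwn; linarith
    have hwpos : 0 < ‖w‖ := norm_pos_iff.2 hw0
    have hz : ‖κ / w ^ 2‖ ≤ 1 / ‖y‖ ^ 2 := by
      rw [norm_div, norm_pow, div_le_div_iff₀ (by positivity) (by positivity)]
      nlinarith [mul_le_mul hwn hwn (by linarith) hwpos.le, norm_nonneg κ]
    have hz2 : ‖κ / w ^ 2‖ ≤ 1 / 4 := by
      refine hz.trans ?_
      rw [div_le_div_iff₀ (by positivity) (by norm_num)]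
      nlinarith
    have e1 : Q κ w = w ^ 2 * (1 + κ / w ^ 2) := by
      unfold Q; field_simp
    have hone2 : ‖1 + κ / w ^ 2‖ ≤ 1 + ‖κ / w ^ 2‖ := by
      have := norm_add_le (1:ℂ) (κ / w ^ 2)
      rwa [norm_one] at this
    have hone3 : 1 - ‖κ / w ^ 2‖ ≤ ‖1 + κ / w ^ 2‖ := by
      have := norm_sub_le_norm_add (1:ℂ) (κ / w ^ 2)
      rwa [norm_one] at this
    have hone : 3 / 4 ≤ ‖1 + κ / w ^ 2‖ := by linarith
    have hlog : |Real.log ‖1 + κ / w ^ 2‖| ≤ 2 * ‖κ / w ^ 2‖ := by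
      set x := ‖1 + κ / w ^ 2‖ with hx
      have hxpos : 0 < x := by linarith
      rw [abs_le]
      constructor
      · have := Real.one_sub_inv_le_log_of_pos hxpos
        have h3 : x⁻¹ ≤ 1 + 2 * ‖κ / w ^ 2‖ := by
          rw [inv_le_iff_one_le_mul₀ hxpos]
          nlinarith [norm_nonneg (κ / w ^ 2)]
        linarith
      · have := Real.log_le_sub_one_of_pos hxpos
        linarith [norm_nonneg (κ / w ^ 2)]
    have p1 : posLog ‖w‖ = Real.log ‖w‖ := posLog_eq_log (by rw [abs_of_pos hwpos]; linarith)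
    have hQ := hbig (n + 1)
    rw [show Qn κ (n + 1) y = Q κ w from rfl] at hQ
    have p2 : posLog ‖Q κ w‖ = Real.log ‖Q κ w‖ :=
      posLog_eq_log (by rw [abs_of_nonneg (norm_nonneg _)]; linarith)
    have e2 : Real.log ‖Q κ w‖ = 2 * Real.log ‖w‖ + Real.log ‖1 + κ / w ^ 2‖ := by
      rw [e1, norm_mul, norm_pow, Real.log_mul (by positivity) (by linarith), Real.log_pow]
      norm_num
    rw [Real.dist_eq, abs_sub_comm]
    have e : a (n + 1) - a n = Real.log ‖1 + κ / w ^ 2‖ / 2 ^ (n + 1) := by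
      simp only [ha]
      unfold Gs
      rw [show Qn κ (n + 1) y = Q κ w from rfl, ← hw, p1, p2, e2, pow_succ]
      field_simp
      ring
    rw [e, abs_div, abs_of_pos (a := (2:ℝ) ^ (n + 1)) (by positivity), div_div,
      show (2:ℝ) * 2 ^ n = 2 ^ (n + 1) by rw [pow_succ]; ring]
    apply div_le_div_of_nonneg_right _ (by positivity)
    refine hlog.trans ?_
    calc 2 * ‖κ / w ^ 2‖ ≤ 2 * (1 / ‖y‖ ^ 2) := by gcongr
      _ = 2 / ‖y‖ ^ 2 := by ring
  have h := dist_le_of_le_geometric_two_of_tendsto₀ (C := 2 / ‖y‖ ^ 2) (f := a) (fun n => hstep n)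
    (G_tendsto hκ y)
  rw [Real.dist_eq] at h
  have e0 : a 0 = Real.log ‖y‖ := by
    simp only [ha]
    unfold Gs
    rw [show Qn κ 0 y = y from rfl, pow_zero, div_one]
    exact posLog_eq_log (by rw [abs_of_nonneg (norm_nonneg _)]; linarith)
  rwa [e0] at h

end Pool.Agent.W_4481_h69
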