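import Pool.Agent.W_4481_h69.LeafK2
import Pool.Agent.W_4481e3_h6.StP

/-!
The four slope leaves (RT format) on the state `StP` of the slope chain.
-/

set_option exponentiation.threshold 1300

namespace Pool.Agent.W_4481_h69.KSnd

open Pool.Agent.W_4481e3_h6.Ev Pool.Agent.W_4481_h69.LeafK

theorem conv {z : ℕ} {u : ℂ} (h : Pool.Agent.W_4481e3_h6.Ev.Pk z u) {k : ℕ} (hk : k ≤ 99)
    (hu : ‖u‖ < 2 ^ k) :
    ∃ a b : ℤ, LeafK.Pk z a b ∧ u = zc a b ∧ |a| < 2 ^ k ∧ |b| < 2 ^ k := by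
  obtain ⟨A, B, hz, hA, hB, hu2⟩ := h
  have e : u = zc ((A : ℤ) - 2 ^ 100) ((B : ℤ) - 2 ^ 100) := by
    rw [hu2]; unfold zc; push_cast; norm_num
  have h1 := (Complex.abs_re_le_norm u).trans_lt hu
  have h2 := (Complex.abs_im_le_norm u).trans_lt hu
  rw [e] at h1 h2
  simp only [zc] at h1 h2
  have h3 : |(A : ℤ) - 2 ^ 100| < 2 ^ k := by exact_mod_cast h1
  have h4 : |(B : ℤ) - 2 ^ 100| < 2 ^ k := by exact_mod_cast h2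
  have hk2 : (2:ℤ) ^ k ≤ 2 ^ 99 := pow_le_pow_right₀ (by norm_num) hk
  refine ⟨_, _, ⟨?_, h3.trans_le hk2, h4.trans_le hk2⟩, e, h3, h4⟩
  rw [hz]; push_cast; ring

theorem finSt {η ω π W A G : ℂ} {zv zp zq r zy zE zW R nW ny M t dl ra : ℕ}
    (h : StP 65536 η ω π 4 W A G zv zp zq r zy zE zW R nW ny M) (hη : ‖η‖ ≤ t) (hω : ‖ω‖ ≤ dl)
    (hπ : ‖π‖ ≤ ra) :
    ∃ ya yb ea eb wa wb qa qb : ℤ, LeafK.Pk zy ya yb ∧ LeafK.Pk zE ea eb ∧ LeafK.Pk zW wa wb ∧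
      LeafK.Pk zq qa qb ∧ ‖zc qa qb‖ ≤ nW ∧ ‖η‖ ≤ t ∧ ‖ω‖ ≤ dl ∧ ‖π‖ ≤ ra ∧
      ‖A - (zc ya yb + zc ea eb / 65536 * η + zc wa wb / 65536 * ω + zc qa qb / 1048576 * π)‖ ≤ R ∧
      |qa| < 2 ^ 50 ∧ |qb| < 2 ^ 50 ∧ |ya| < 2 ^ 60 ∧ |yb| < 2 ^ 60 := by
  obtain ⟨v, p, q, y, yE, yW, -, -, hq, hy, hE, hW, hS, -, hqβ, hyβ, hEβ, hWβ⟩ := h
  obtain ⟨ya, yb, hy1, hy2, hy3, hy4⟩ := conv hy (k := 60) (by norm_num) (hyβ.trans_lt (by norm_num))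
  obtain ⟨ea, eb, hE1, hE2, -, -⟩ := conv hE (k := 99) le_rfl (hEβ.trans_lt (by norm_num))
  obtain ⟨wa, wb, hW1, hW2, -, -⟩ := conv hW (k := 99) le_rfl (hWβ.trans_lt (by norm_num))
  obtain ⟨qa, qb, hq1, hq2, hq3, hq4⟩ := conv hq (k := 50) (by norm_num) (hqβ.trans_lt (by norm_num))
  refine ⟨ya, yb, ea, eb, wa, wb, qa, qb, hy1, hE1, hW1, hq1, ?_, hη, hω, hπ, ?_, hq3, hq4, hy3, hy4⟩
  · rw [← hq2]; exact hS.hq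
  · rw [← hy2, ← hE2, ← hW2, ← hq2]
    have h1 := hS.fa
    have e : q / 65536 / 2 ^ 4 = q / 1048576 := by ring
    rw [e] at h1
    exact h1

theorem klo_sound {η ω π W A G : ℂ} {A1 zv zp zq r zy zE zW R nW ny M t dl ra : ℕ}
    (h : StP 65536 η ω π 4 W A G zv zp zq r zy zE zW R nW ny M) (hη : ‖η‖ ≤ t) (hω : ‖ω‖ ≤ dl)
    (hπ : ‖π‖ ≤ ra) (hk : klo A1 t dl ra zv zp zq r zy zE zW R nW ny M = true) : ‖A‖ < A1 := by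
  obtain ⟨ya, yb, ea, eb, wa, wb, qa, qb, h1, h2, h3, h4, h5, h6, h7, h8, h9, -⟩ := finSt h hη hω hπ
  exact LeafK.klo_sound hk ⟨⟨ya, yb, ea, eb, wa, wb, qa, qb, h1, h2, h3, h4, h5, h6, h7, h8, h9⟩⟩

theorem khi_sound {η ω π W A G : ℂ} {A2 zv zp zq r zy zE zW R nW ny M t dl ra : ℕ}
    (h : StP 65536 η ω π 4 W A G zv zp zq r zy zE zW R nW ny M) (hη : ‖η‖ ≤ t) (hω : ‖ω‖ ≤ dl)
    (hπ : ‖π‖ ≤ ra) (hk : khi A2 t dl ra zv zp zq r zy zE zW R nW ny M = true) : A2 < ‖A‖ := by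
  obtain ⟨ya, yb, ea, eb, wa, wb, qa, qb, h1, h2, h3, h4, h5, h6, h7, h8, h9, -⟩ := finSt h hη hω hπ
  exact LeafK.khi_sound hk ⟨⟨ya, yb, ea, eb, wa, wb, qa, qb, h1, h2, h3, h4, h5, h6, h7, h8, h9⟩⟩

/-- PW: the chain started at the slope `0`; `b = G a + A` -/
theorem kpw_sound {η ω W A G a b : ℂ} {A1 zv zp zq r zy zE zW R nW ny M t dl : ℕ}
    (h : StP 65536 η ω 0 4 W A G zv zp zq r zy zE zW R nW ny M) (hη : ‖η‖ ≤ t) (hω : ‖ω‖ ≤ dl)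
    (hb : b = G * a + A) (h4 : 100 * ‖a‖ ≤ 101 * ‖b‖)
    (hk : kpw A1 t dl zv zp zq r zy zE zW R nW ny M = true) : ‖b‖ < A1 := by
  obtain ⟨ya, yb, ea, eb, wa, wb, qa, qb, h1, h2, h3, h4', h5, h6, h7, h8, h9, -⟩ :=
    finSt (ra := 0) h hη hω (by simp)
  have hM : 65536 * ‖G‖ ≤ M := by
    obtain ⟨v, p, q, y, yE, yW, -, -, -, -, -, -, hS, -⟩ := h
    exact hS.hM
  exact LeafK.kpw_sound hk ⟨⟨ya, yb, ea, eb, wa, wb, qa, qb, h1, h2, h3, h4', h5, h6, h7, h8, h9⟩⟩ hM hb h4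

/-- PW, for every size of the slope -/
theorem kpw_sound' {η ω W A G : ℂ} {A1 zv zp zq r zy zE zW R nW ny M t dl : ℕ}
    (h : StP 65536 η ω 0 4 W A G zv zp zq r zy zE zW R nW ny M) (hη : ‖η‖ ≤ t) (hω : ‖ω‖ ≤ dl)
    (hk : kpw A1 t dl zv zp zq r zy zE zW R nW ny M = true) {b : ℝ} (hb : A1 ≤ b) :
    ‖A‖ + 101 / 100 * ‖G‖ * b < b := by
  obtain ⟨ya, yb, ea, eb, wa, wb, qa, qb, h1, h2, h3, h4', h5, h6, h7, h8, h9, -⟩ :=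
    finSt (ra := 0) h hη hω (by simp)
  have hM : 65536 * ‖G‖ ≤ M := by
    obtain ⟨v, p, q, y, yE, yW, -, -, -, -, -, -, hS, -⟩ := h
    exact hS.hM
  have hl := LeafK.kpw_lt hk ⟨⟨ya, yb, ea, eb, wa, wb, qa, qb, h1, h2, h3, h4', h5, h6, h7, h8, h9⟩⟩
  have hG : ‖G‖ ≤ M / 65536 := by rw [le_div_iff₀ (by norm_num)]; linarith
  have hA0 : (0:ℝ) ≤ A1 := Nat.cast_nonneg _
  have e1 : ‖G‖ * A1 ≤ M / 65536 * A1 := mul_le_mul_of_nonneg_right hG hA0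
  have e2 : ‖A‖ < (1 - 101 / 100 * ‖G‖) * A1 := by linarith
  have e3 : 0 < 1 - 101 / 100 * ‖G‖ := by
    by_contra hc
    have h1 := mul_nonpos_of_nonpos_of_nonneg (not_lt.1 hc) hA0
    have h2 := norm_nonneg A
    linarith
  have e4 := mul_le_mul_of_nonneg_left hb e3.le
  linarith

/-- PR -/
theorem kpr_sound {η ω W A G a : ℂ} {P Q zv zp zq r zy zE zW R nW ny M t dl ra : ℕ}
    (h : StP 65536 η ω (a - zc (1024 * ((P:ℤ) - 16777216)) (1024 * ((Q:ℤ) - 16777216))) 4 W A G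
      zv zp zq r zy zE zW R nW ny M) (hη : ‖η‖ ≤ t) (hω : ‖ω‖ ≤ dl)
    (hπ : ‖a - zc (1024 * ((P:ℤ) - 16777216)) (1024 * ((Q:ℤ) - 16777216))‖ ≤ ra)
    (hPQ : P + Q ≤ 4294967296)
    (hk : kpr P Q t dl ra zv zp zq r zy zE zW R nW ny M = true) : 101 * ‖A‖ < 100 * ‖a‖ := by
  obtain ⟨ya, yb, ea, eb, wa, wb, qa, qb, h1, h2, h3, h4, h5, h6, h7, h8, h9, b1, b2, b3, b4⟩ :=
    finSt h hη hω hπ
  exact LeafK.kpr_sound hk hPQ h1 h2 h3 h4 h5 h6 h7 h8 h9 b1 b2 b3 b4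

/-- PR, with the deviation `π` and the centre `x` of the slope cell -/
theorem kpr_sound' {η ω π x W A G : ℂ} {P Q zv zp zq r zy zE zW R nW ny M t dl ra : ℕ}
    (h : StP 65536 η ω π 4 W A G zv zp zq r zy zE zW R nW ny M) (hη : ‖η‖ ≤ t) (hω : ‖ω‖ ≤ dl)
    (hπ : ‖π‖ ≤ ra) (hPQ : P + Q ≤ 4294967296)
    (hx : x = ⟨1024 * ((P:ℝ) - 16777216), 1024 * ((Q:ℝ) - 16777216)⟩)
    (hk : kpr P Q t dl ra zv zp zq r zy zE zW R nW ny M = true) : 101 * ‖A‖ < 100 * ‖x + π‖ := by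
  have e : π = (x + π) - zc (1024 * ((P:ℤ) - 16777216)) (1024 * ((Q:ℤ) - 16777216)) := by
    have : zc (1024 * ((P:ℤ) - 16777216)) (1024 * ((Q:ℤ) - 16777216)) = x := by
      rw [hx]; unfold zc; push_cast; rfl
    rw [this]; ring
  rw [e] at h hπ
  exact kpr_sound h hη hω hπ hPQ hk

end Pool.Agent.W_4481_h69.KSnd
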