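import Pool.Agent.W_4481_h69.LeafR
import Pool.Agent.W_4481e3_h6.EvS
import Pool.Agent.W_4481e3_h6.Gau
import Pool.Agent.W_4481e3_q42.SndK

/-!
Integer soundness of the slope leaves (RT format), on an abstract final state.
-/

set_option exponentiation.threshold 700

namespace Pool.Agent.W_4481_h69.LeafK

open Pool.Agent.W_4481e3_h6.Ev Pool.Agent.W_4481e3_h6.Gau
open Pool.Agent.W_MP_4481e3_an.Ev (nrm1 nrm1_sound)
open Pool.Agent.W_4481e3_q12.Ev (ds ds_cast)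
open Pool.Agent.W_4481e3_q42.Ev (nrq nrq_sound)

/-- packed number with the fields `a`, `b` -/
structure Pk (z : ℕ) (a b : ℤ) : Prop where
  eq : (z : ℤ) = (a + 2 ^ 100) + (b + 2 ^ 100) * 2 ^ 256
  ha : |a| < 2 ^ 99
  hb : |b| < 2 ^ 99

/-- the complex number of the fields -/
noncomputable def zc (a b : ℤ) : ℂ := ⟨(a : ℝ), (b : ℝ)⟩

theorem Pk.nat {z : ℕ} {a b : ℤ} (h : Pk z a b) : ∃ A B : ℕ, (A : ℤ) = a + 2 ^ 100 ∧
    (B : ℤ) = b + 2 ^ 100 ∧ A < 2 ^ 101 ∧ B < 2 ^ 101 ∧ z = A + B * 2 ^ 256 := by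
  have h1 := abs_lt.1 h.ha
  have h2 := abs_lt.1 h.hb
  obtain ⟨A, hA⟩ := Int.eq_ofNat_of_zero_le (by norm_num at h1 ⊢; linarith [h1.1] : 0 ≤ a + 2 ^ 100)
  obtain ⟨B, hB⟩ := Int.eq_ofNat_of_zero_le (by norm_num at h2 ⊢; linarith [h2.1] : 0 ≤ b + 2 ^ 100)
  refine ⟨A, B, hA.symm, hB.symm, ?_, ?_, ?_⟩
  · have : (A : ℤ) < 2 ^ 101 := by rw [← hA]; norm_num at h1 ⊢; linarith [h1.2]
    exact_mod_cast this
  · have : (B : ℤ) < 2 ^ 101 := by rw [← hB]; norm_num at h2 ⊢; linarith [h2.2]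
    exact_mod_cast this
  · have h3 := h.eq
    rw [hA, hB] at h3
    exact_mod_cast h3

theorem lo_eq {A B : ℕ} (hA : A < 2 ^ 256) : lo (A + B * 2 ^ 256) = A := by
  unfold lo
  have e : (115792089237316195423570985008687907853269984665640564039457584007913129639935 : ℕ) =
      2 ^ 256 - 1 := by norm_num
  rw [e]
  show (A + B * 2 ^ 256) &&& (2 ^ 256 - 1) = A
  rw [Nat.and_two_pow_sub_one_eq_mod, Nat.add_mul_mod_self_right, Nat.mod_eq_of_lt hA]

theorem hi_eq {A B : ℕ} (hA : A < 2 ^ 256) : hi (A + B * 2 ^ 256) = B := by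
  unfold hi
  show (A + B * 2 ^ 256) >>> 256 = B
  rw [Nat.shiftRight_eq_div_pow, Nat.add_mul_div_right _ _ (Nat.two_pow_pos _), Nat.div_eq_of_lt hA,
    zero_add]

theorem Pk.lo {z : ℕ} {a b : ℤ} (h : Pk z a b) :
    ((ds (lo z) 1267650600228229401496703205376 : ℕ) : ℝ) = |(a : ℝ)| := by
  obtain ⟨A, B, hA, hB, hA2, hB2, hz⟩ := h.nat
  rw [ds_cast, hz, lo_eq (hA2.trans (by norm_num))]
  have : ((A : ℕ) : ℝ) = (a : ℝ) + 2 ^ 100 := by exact_mod_cast congrArg (Int.cast (R := ℝ)) hA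
  rw [this]; congr 1; norm_num

theorem Pk.hi {z : ℕ} {a b : ℤ} (h : Pk z a b) :
    ((ds (hi z) 1267650600228229401496703205376 : ℕ) : ℝ) = |(b : ℝ)| := by
  obtain ⟨A, B, hA, hB, hA2, hB2, hz⟩ := h.nat
  rw [ds_cast, hz, hi_eq (hA2.trans (by norm_num))]
  have : ((B : ℕ) : ℝ) = (b : ℝ) + 2 ^ 100 := by exact_mod_cast congrArg (Int.cast (R := ℝ)) hB
  rw [this]; congr 1; norm_num

theorem zc_norm_sq (a b : ℤ) : ‖zc a b‖ ^ 2 = (a : ℝ) ^ 2 + (b : ℝ) ^ 2 := by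
  rw [← Complex.normSq_eq_norm_sq, Complex.normSq_apply]
  simp only [zc]; ring

theorem nr2_sound {a b : ℕ} {x : ℝ} (hx : x ^ 2 ≤ (a:ℝ) ^ 2 + (b:ℝ) ^ 2) : x ≤ nr2 a b := by
  unfold nr2
  apply nrm1_sound
  · exact Nat.succ_pos _
  · simp only [Nat.add_eq, Nat.mul_eq]
    push_cast
    linarith

theorem Pk.np2 {z : ℕ} {a b : ℤ} (h : Pk z a b) : ‖zc a b‖ ≤ np2 z := by
  unfold Pool.Agent.W_4481e3_h6.Ev.np2
  apply nr2_sound
  rw [h.lo, h.hi, sq_abs, sq_abs, zc_norm_sq]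

theorem Pk.np1 {z : ℕ} {a b : ℤ} (h : Pk z a b) : ‖zc a b‖ ≤ np1 z := by
  unfold Pool.Agent.W_4481e3_h6.Ev.np1
  apply nrq_sound
  rw [h.lo, h.hi, sq_abs, sq_abs, zc_norm_sq]

/-- residue of a packed number -/
theorem Pk.fx {z : ℕ} {a b : ℤ} (h : Pk z a b) : Rp (fx z) a b := by
  unfold Pool.Agent.W_4481e3_h6.Ev.fx
  have h1 : Rp z (a + 2 ^ 100) (b + 2 ^ 100) := by
    unfold Rp; rw [h.eq]
  have h2 : Rp 13407807929942597099574024998205846127479365820445609466300196866978671492774213412590894138860133435770826172465722986784089587444865154317984108363382785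
      (-2 ^ 100) (-2 ^ 100) := by
    apply Rp.of_dvd
    unfold Mz tz
    norm_num
  exact (h1.add h2).congr (by ring) (by ring)

theorem Pk.cj {z : ℕ} {a b : ℤ} (h : Pk z a b) : Rp (cj z) a (-b) := by
  obtain ⟨A, B, hA, hB, hA2, hB2, hz⟩ := h.nat
  unfold Pool.Agent.W_4481e3_h6.Ev.cj
  have e1 : Nat.land z 115792089237316195423570985008687907853269984665640564039457584007913129639935 = A := by
    have := lo_eq (A := A) (B := B) (hA2.trans (by norm_num))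
    rw [← hz] at this
    exact this
  rw [e1]
  have h1 : Rp (2 * A) ((2:ℕ) * (A:ℤ)) ((2:ℕ) * 0) := (Rp.const A).smul 2
  have h3 : Rp 13407807929942597099574024998205846127479365820739177289146926020464856567372880541012854457473673419609237543907249114923415642877827529116080196242374657
      (-2 ^ 100) (2 ^ 100) := by
    apply Rp.of_dvd
    unfold Mz tz
    norm_num
  have h4 : Rp z (a + 2 ^ 100) (b + 2 ^ 100) := by
    unfold Rp; rw [h.eq]
  have h5 := (h1.add h3).sub (K := 0) h4 (by norm_num) (by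
    rw [hz]
    have : B * 2 ^ 256 ≤ 2 ^ 101 * 2 ^ 256 := Nat.mul_le_mul_right _ hB2.le
    have e : (2:ℕ) ^ 101 * 2 ^ 256 ≤ 13407807929942597099574024998205846127479365820739177289146926020464856567372880541012854457473673419609237543907249114923415642877827529116080196242374657 := by
      norm_num
    omega)
  simp only [Nat.sub_eq, Nat.add_eq, Nat.mul_eq]
  rw [add_zero] at h5
  exact h5.congr (by push_cast; rw [hA]; ring) (by push_cast; ring)

theorem Pk.norm {z : ℕ} {a b : ℤ} (h : Pk z a b) : ((nN z : ℕ) : ℝ) = (a : ℝ) ^ 2 + (b : ℝ) ^ 2 := by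
  have h1 := abs_lt.1 h.ha
  have h2 := abs_lt.1 h.hb
  have h3 := Rp.norm h.fx h.cj (by
    have ha : a ^ 2 < (2 ^ 99) ^ 2 := sq_lt_sq' h1.1 h1.2
    have hb : b ^ 2 < (2 ^ 99) ^ 2 := sq_lt_sq' h2.1 h2.2
    have e : ((2:ℤ) ^ 99) ^ 2 + (2 ^ 99) ^ 2 < Mz := by unfold Mz; norm_num
    linarith)
  have e : (2 ^ 512 + 1 : ℕ) = 13407807929942597099574024998205846127479365820592393377723561443721764030073546976801874298166903427690031858186486050853753882811946569946433649006084097 := by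
    norm_num
  have h4 : ((nN z : ℕ) : ℤ) = a ^ 2 + b ^ 2 := by
    rw [← h3, e]; rfl
  exact_mod_cast congrArg (Int.cast (R := ℝ)) h4

/-- radius without the slope part -/
theorem dzf_sound {t dl zE zW R : ℕ} {ea eb wa wb : ℤ} (hE : Pk zE ea eb) (hW : Pk zW wa wb) :
    ‖zc ea eb‖ / 65536 * t + ‖zc wa wb‖ / 65536 * dl + R ≤ dzf t dl zE zW R := by
  unfold dzf
  have h1 := hE.np2
  have h2 := hW.np2
  set m := (np2 zE) * t + (np2 zW) * dl with hm
  have h3 : Nat.add (Nat.add (Nat.shiftRight (Nat.add (Nat.mul (np2 zE) t) (Nat.mul (np2 zW) dl)) 16) R) 2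
      = m / 65536 + R + 2 := by
    simp only [Nat.add_eq, Nat.mul_eq, Nat.shiftRight_eq, Nat.shiftRight_eq_div_pow]
    norm_num [hm]
  rw [h3]
  push_cast
  have h4 : (m : ℝ) / 65536 ≤ ((m / 65536 : ℕ) : ℝ) + 1 := by
    have h5 : m < (m / 65536 + 1) * 65536 := by omega
    have h6 : (m : ℝ) < (((m / 65536 : ℕ) : ℝ) + 1) * 65536 := by exact_mod_cast h5
    rw [div_le_iff₀ (by norm_num)]
    exact h6.le
  have h5 : ‖zc ea eb‖ * t ≤ (np2 zE : ℝ) * t := by gcongr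
  have h6 : ‖zc wa wb‖ * dl ≤ (np2 zW : ℝ) * dl := by gcongr
  have h7 : (m : ℝ) = (np2 zE : ℝ) * t + (np2 zW : ℝ) * dl := by rw [hm]; push_cast; ring
  have h8 : ‖zc ea eb‖ / 65536 * t + ‖zc wa wb‖ / 65536 * dl ≤ (m : ℝ) / 65536 := by
    rw [h7, div_mul_eq_mul_div, div_mul_eq_mul_div, ← add_div]
    gcongr
  linarith

/-- slope part -/
theorem dgf_sound {nW ra : ℕ} : (nW : ℝ) / 1048576 * ra ≤ dgf nW ra := by
  unfold dgf
  have h3 : Nat.add (Nat.shiftRight (Nat.mul nW ra) 20) 1 = nW * ra / 1048576 + 1 := by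
    simp only [Nat.add_eq, Nat.mul_eq, Nat.shiftRight_eq, Nat.shiftRight_eq_div_pow]
  rw [h3]
  push_cast
  have h5 : nW * ra < (nW * ra / 1048576 + 1) * 1048576 := by omega
  have h6 : ((nW : ℝ) * ra) < (((nW * ra / 1048576 : ℕ) : ℝ) + 1) * 1048576 := by exact_mod_cast h5
  rw [div_mul_eq_mul_div, div_le_iff₀ (by norm_num)]
  exact h6.le

/-- **The final state** of the slope chain; `b = 2^24 b_0`, `E', om, al` the scaled deviations of the
parameter, the point, the slope. -/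
structure FinSt (t dl ra zq zy zE zW R nW : ℕ) (b E' om al : ℂ) : Prop where
  ex : ∃ ya yb ea eb wa wb qa qb : ℤ, Pk zy ya yb ∧ Pk zE ea eb ∧ Pk zW wa wb ∧ Pk zq qa qb ∧
    ‖zc qa qb‖ ≤ nW ∧ ‖E'‖ ≤ t ∧ ‖om‖ ≤ dl ∧ ‖al‖ ≤ ra ∧
    ‖b - (zc ya yb + zc ea eb / 65536 * E' + zc wa wb / 65536 * om + zc qa qb / 1048576 * al)‖ ≤ R

theorem FinSt.tot {t dl ra zq zy zE zW R nW : ℕ} {b E' om al : ℂ}
    (h : FinSt t dl ra zq zy zE zW R nW b E' om al) :
    ∃ ya yb : ℤ, Pk zy ya yb ∧ ‖b - zc ya yb‖ ≤ dzf t dl zE zW R + dgf nW ra := by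
  obtain ⟨ya, yb, ea, eb, wa, wb, qa, qb, hy, hE, hW, hq, hnW, hE', hom, hal, hm⟩ := h.ex
  refine ⟨ya, yb, hy, LeafR.tot hE' hom hal hm ?_⟩
  have h1 := dzf_sound (t := t) (dl := dl) (R := R) hE hW
  have h2 := dgf_sound (nW := nW) (ra := ra)
  have h3 : ‖zc qa qb / 1048576‖ * ra ≤ (nW : ℝ) / 1048576 * ra := by
    rw [norm_div]
    have : ‖(1048576 : ℂ)‖ = 1048576 := by simp
    rw [this]
    gcongr
  have h4 : ‖zc ea eb / 65536‖ = ‖zc ea eb‖ / 65536 := by rw [norm_div]; simp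
  have h5 : ‖zc wa wb / 65536‖ = ‖zc wa wb‖ / 65536 := by rw [norm_div]; simp
  rw [h4, h5]
  linarith

theorem klo_sound {A1 t dl ra zv zp zq r zy zE zW R nW ny M : ℕ} {b E' om al : ℂ}
    (h : klo A1 t dl ra zv zp zq r zy zE zW R nW ny M = true)
    (hs : FinSt t dl ra zq zy zE zW R nW b E' om al) : ‖b‖ < A1 := by
  by_contra hc
  obtain ⟨ya, yb, hy, hm⟩ := hs.tot
  unfold klo klo2 at h
  set D := dzf t dl zE zW R + dgf nW ra with hD
  have h1 : nN zy + 1 ≤ (A1 - D) * (A1 - D) := Nat.le_of_ble_eq_true h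
  have h2 : D ≤ A1 := by
    by_contra h3
    rw [Nat.sub_eq_zero_of_le (not_le.1 h3).le] at h1
    omega
  refine LeafR.rlo (a0 := b) (y := zc ya yb) (D := (D : ℝ)) (A := A1) (by rw [hD]; push_cast; exact hm)
    (not_lt.1 hc) (by exact_mod_cast h2) ?_
  have h3 := hy.norm
  have h4 : ((nN zy : ℕ) : ℝ) + 1 ≤ ((A1 : ℝ) - D) * ((A1 : ℝ) - D) := by
    have := (Nat.cast_le (α := ℝ)).2 h1
    rw [Nat.cast_add, Nat.cast_mul, Nat.cast_sub h2] at this
    exact_mod_cast this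
  show (ya : ℝ) ^ 2 + (yb : ℝ) ^ 2 < _
  rw [← h3, sq]
  linarith

theorem khi_sound {A2 t dl ra zv zp zq r zy zE zW R nW ny M : ℕ} {b E' om al : ℂ}
    (h : khi A2 t dl ra zv zp zq r zy zE zW R nW ny M = true)
    (hs : FinSt t dl ra zq zy zE zW R nW b E' om al) : A2 < ‖b‖ := by
  by_contra hc
  obtain ⟨ya, yb, hy, hm⟩ := hs.tot
  unfold khi khi2 at h
  set D := dzf t dl zE zW R + dgf nW ra with hD
  have h1 : (A2 + D) * (A2 + D) + 1 ≤ nN zy := Nat.le_of_ble_eq_true h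
  refine LeafR.rhi (a0 := b) (y := zc ya yb) (D := (D : ℝ)) (A := A2) (by rw [hD]; push_cast; exact hm)
    (not_lt.1 hc) ?_
  have h3 := hy.norm
  have h4 : ((A2 : ℝ) + D) * ((A2 : ℝ) + D) + 1 ≤ ((nN zy : ℕ) : ℝ) := by exact_mod_cast h1
  show _ < (ya : ℝ) ^ 2 + (yb : ℝ) ^ 2
  rw [← h3, sq]
  linarith

end Pool.Agent.W_4481_h69.LeafK
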