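import Pool.Agent.W_4481_h69.LeafK

/-!
Integer soundness of the slope leaves PW and PR (RT format), on an abstract final state.
-/

set_option exponentiation.threshold 1300

namespace Pool.Agent.W_4481_h69.LeafK

open Pool.Agent.W_4481e3_h6.Ev Pool.Agent.W_4481e3_h6.Gau
open Pool.Agent.W_MP_4481e3_an.Ev (nrm1 nrm1_sound)
open Pool.Agent.W_4481e3_q12.Ev (ds ds_cast)
open Pool.Agent.W_4481e3_q42.Ev (nrq nrq_sound)

lemma shr_up {n : ℕ} (m : ℕ) : (n : ℝ) / 2 ^ m ≤ ((n >>> m : ℕ) : ℝ) + 1 := by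
  rw [Nat.shiftRight_eq_div_pow, div_le_iff₀ (by positivity)]
  have h5 : n < (n / 2 ^ m + 1) * 2 ^ m := by
    have h1 := Nat.div_add_mod n (2 ^ m)
    have h2 := Nat.mod_lt n (Nat.two_pow_pos m)
    rw [Nat.add_mul, one_mul, mul_comm (n / 2 ^ m) (2 ^ m)]
    omega
  have h6 : (n : ℝ) < (((n / 2 ^ m : ℕ) : ℝ) + 1) * 2 ^ m := by exact_mod_cast h5
  exact h6.le

/-- PW, numerical form -/
theorem kpw_lt {A1 t dl zv zp zq r zy zE zW R nW ny M : ℕ} {S E' om : ℂ}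
    (h : kpw A1 t dl zv zp zq r zy zE zW R nW ny M = true)
    (hs : FinSt t dl 0 zq zy zE zW R nW S E' om 0) :
    100 * ‖S‖ + 101 * ((M : ℝ) / 65536) * A1 < 100 * A1 := by
  obtain ⟨ya, yb, ea, eb, wa, wb, qa, qb, hy, hE, hW, hq, hnW, hE', hom, hal, hm⟩ := hs.ex
  have hD := dzf_sound (t := t) (dl := dl) (R := R) hE hW
  have hm' : ‖S - zc ya yb‖ ≤ dzf t dl zE zW R := by
    refine LeafR.tot hE' hom (t := 0) (by simp) hm ?_
    have h4 : ‖zc ea eb / 65536‖ = ‖zc ea eb‖ / 65536 := by rw [norm_div]; simp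
    have h5 : ‖zc wa wb / 65536‖ = ‖zc wa wb‖ / 65536 := by rw [norm_div]; simp
    rw [h4, h5]
    linarith
  unfold kpw klo2 at h
  set m := (1059062 * M * A1) >>> 36 with hmd
  set D := dzf t dl zE zW R with hDd
  have h1 : nN zy + 1 ≤ (A1 - (D + (m + 1))) * (A1 - (D + (m + 1))) := Nat.le_of_ble_eq_true h
  have h2 : D + (m + 1) ≤ A1 := by
    by_contra h3
    rw [Nat.sub_eq_zero_of_le (not_le.1 h3).le] at h1
    omega
  have h3 := hy.norm
  have h4' : ((nN zy : ℕ) : ℝ) + 1 ≤ ((A1 : ℝ) - (D + (m + 1))) * ((A1 : ℝ) - (D + (m + 1))) := by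
    have := (Nat.cast_le (α := ℝ)).2 h1
    rw [Nat.cast_add, Nat.cast_mul, Nat.cast_sub h2] at this
    push_cast at this
    exact this
  have h5 : ‖zc ya yb‖ < (A1 : ℝ) - (D + (m + 1)) := by
    refine lt_of_pow_lt_pow_left₀ 2 ?_ ?_
    · have : ((D + (m + 1) : ℕ) : ℝ) ≤ A1 := by exact_mod_cast h2
      push_cast at this
      linarith
    · rw [zc_norm_sq, ← h3, sq]
      linarith
  have h6 : (1059062 * M * A1 : ℝ) / 2 ^ 36 ≤ m + 1 := by
    have := shr_up (n := 1059062 * M * A1) 36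
    push_cast at this
    exact this
  have h8 : ‖S‖ ≤ ‖zc ya yb‖ + D := by
    have := norm_sub_norm_le S (zc ya yb)
    linarith
  have h9 : 101 * ((M : ℝ) / 65536) * A1 ≤ 100 * ((1059062 * M * A1 : ℝ) / 2 ^ 36) := by
    have : (0:ℝ) ≤ (M : ℝ) * A1 := by positivity
    norm_num
    nlinarith
  linarith

/-- PW -/
theorem kpw_sound {A1 t dl zv zp zq r zy zE zW R nW ny M : ℕ} {b a G S E' om : ℂ}
    (h : kpw A1 t dl zv zp zq r zy zE zW R nW ny M = true)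
    (hs : FinSt t dl 0 zq zy zE zW R nW S E' om 0) (hG : 65536 * ‖G‖ ≤ M) (hb : b = G * a + S)
    (h4 : 100 * ‖a‖ ≤ 101 * ‖b‖) : ‖b‖ < A1 := by
  by_contra hc
  have h7 : ‖G‖ ≤ M / 65536 := by rw [le_div_iff₀ (by norm_num)]; linarith
  exact LeafR.pw hb h7 le_rfl h4 (Nat.cast_nonneg A1) (not_lt.1 hc) (kpw_lt h hs)

theorem rz40_sound {x : ℕ} {a b : ℤ} (hx : Rp x (a + 2 ^ 140) (b + 2 ^ 140)) (ha : |a| < 2 ^ 138)
    (hb : |b| < 2 ^ 138) : Pk (rz40 x) (a / 2 ^ 40) (b / 2 ^ 40) := by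
  have h1 := abs_lt.1 ha
  have h2 := abs_lt.1 hb
  obtain ⟨A, hA⟩ := Int.eq_ofNat_of_zero_le (by norm_num at h1 ⊢; linarith [h1.1] : 0 ≤ a + 2 ^ 140)
  obtain ⟨B, hB⟩ := Int.eq_ofNat_of_zero_le (by norm_num at h2 ⊢; linarith [h2.1] : 0 ≤ b + 2 ^ 140)
  have hA2 : A < 2 ^ 256 := by
    have : (A : ℤ) < 2 ^ 256 := by rw [← hA]; norm_num at h1 ⊢; linarith [h1.2]
    exact_mod_cast this
  have hB2 : B < 2 ^ 256 := by
    have : (B : ℤ) < 2 ^ 256 := by rw [← hB]; norm_num at h2 ⊢; linarith [h2.2]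
    exact_mod_cast this
  have h3 : Rp x A B := hx.congr hA hB
  have h4 := h3.eq hA2 hB2
  have e1 : (13407807929942597099574024998205846127479365820592393377723561443721764030073546976801874298166903427690031858186486050853753882811946569946433649006084097 : ℕ) =
      2 ^ 512 + 1 := by norm_num
  have e2 : (12194330274671844653834364178879555881830461494785043558043581873420816265527498570463043287269775522517487635459672951741286620100561045815295 : ℕ) =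
      (2 ^ (256 - 40) - 1) * 2 ^ 256 + (2 ^ (256 - 40) - 1) := by norm_num
  have h5 : rz40 x = A / 2 ^ 40 + B / 2 ^ 40 * 2 ^ 256 := by
    unfold rz40
    show ((x % 13407807929942597099574024998205846127479365820592393377723561443721764030073546976801874298166903427690031858186486050853753882811946569946433649006084097) >>> 40) &&&
      12194330274671844653834364178879555881830461494785043558043581873420816265527498570463043287269775522517487635459672951741286620100561045815295 = _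
    rw [e1, e2, h4]
    exact field_shift (by norm_num) hA2 hB2
  have hd : ∀ c : ℤ, (c + 2 ^ 140) / 2 ^ 40 = c / 2 ^ 40 + 2 ^ 100 := by
    intro c
    have e : (2:ℤ) ^ 140 = 2 ^ 100 * 2 ^ 40 := by norm_num
    rw [e, Int.add_mul_ediv_right _ _ (by norm_num)]
  have hbd : ∀ c : ℤ, |c| < 2 ^ 138 → |c / 2 ^ 40| < 2 ^ 99 := by
    intro c hc
    have h := abs_lt.1 hc
    rw [abs_lt]
    constructor
    · have : -(2 ^ 98) ≤ c / 2 ^ 40 := by
        rw [Int.le_ediv_iff_mul_le (by norm_num)]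
        norm_num at h ⊢; linarith [h.1]
      norm_num at this ⊢; linarith
    · rw [Int.ediv_lt_iff_lt_mul (by norm_num)]
      norm_num at h ⊢; linarith [h.2]
  refine ⟨?_, hbd a ha, hbd b hb⟩
  have hA' : ((A / 2 ^ 40 : ℕ) : ℤ) = a / 2 ^ 40 + 2 ^ 100 := by
    rw [Int.natCast_ediv, Nat.cast_pow, Nat.cast_ofNat, ← hA]; exact hd a
  have hB' : ((B / 2 ^ 40 : ℕ) : ℤ) = b / 2 ^ 40 + 2 ^ 100 := by
    rw [Int.natCast_ediv, Nat.cast_pow, Nat.cast_ofNat, ← hB]; exact hd b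
  rw [h5, Nat.cast_add, Nat.cast_mul, hA', hB', Nat.cast_pow, Nat.cast_ofNat]

/-- packed centre of the slope cell -/
theorem zsl_pk {P Q : ℕ} (h : P + Q ≤ 4294967296) :
    Pk (zsl P Q) (1024 * ((P:ℤ) - 16777216)) (1024 * ((Q:ℤ) - 16777216)) := by
  refine ⟨?_, ?_, ?_⟩
  · unfold zsl
    simp only [Nat.add_eq, Nat.mul_eq, Nat.shiftLeft_eq']
    rw [Nat.shiftLeft_eq]
    push_cast
    ring
  · rw [abs_lt]; constructor <;> norm_num <;> omega
  · rw [abs_lt]; constructor <;> norm_num <;> omega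

theorem ds_lo_nat {z : ℕ} {a b : ℤ} (h : Pk z a b) :
    ((ds (lo z) 1267650600228229401496703205376 : ℕ) : ℝ) = |(a : ℝ)| := h.lo

theorem nq2_sound {z : ℕ} {a b : ℤ} (h : Pk z a b) {w : ℂ} (h1 : (a:ℝ) ≤ w.re) (h2 : w.re ≤ a + 1)
    (h3 : (b:ℝ) ≤ w.im) (h4 : w.im ≤ b + 1) : ‖w‖ ≤ nq2 z := by
  unfold nq2
  apply nr2_sound
  rw [Nat.cast_succ, Nat.cast_succ, h.lo, h.hi, ← Complex.normSq_eq_norm_sq, Complex.normSq_apply]
  have e1 : |w.re| ≤ |(a:ℝ)| + 1 := by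
    rw [abs_le]
    have := neg_abs_le (a:ℝ)
    have := le_abs_self (a:ℝ)
    constructor <;> linarith
  have e2 : |w.im| ≤ |(b:ℝ)| + 1 := by
    rw [abs_le]
    have := neg_abs_le (b:ℝ)
    have := le_abs_self (b:ℝ)
    constructor <;> linarith
  have e3 : w.re ^ 2 ≤ (|(a:ℝ)| + 1) ^ 2 := by
    rw [← sq_abs w.re]; gcongr
  have e4 : w.im ^ 2 ≤ (|(b:ℝ)| + 1) ^ 2 := by
    rw [← sq_abs w.im]; gcongr
  nlinarith

theorem fx_lt {z : ℕ} {a b : ℤ} (h : Pk z a b) : fx z < 2 ^ 513 := by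
  obtain ⟨A, B, hA, hB, hA2, hB2, hz⟩ := h.nat
  unfold fx
  simp only [Nat.add_eq]
  rw [hz]
  have : B * 2 ^ 256 ≤ 2 ^ 101 * 2 ^ 256 := Nat.mul_le_mul_right _ hB2.le
  norm_num at this hA2 ⊢
  omega

theorem cj_lt {z : ℕ} {a b : ℤ} (h : Pk z a b) : cj z < 2 ^ 513 := by
  obtain ⟨A, B, hA, hB, hA2, hB2, hz⟩ := h.nat
  unfold cj
  have e1 : Nat.land z 115792089237316195423570985008687907853269984665640564039457584007913129639935 = A := by
    have := lo_eq (A := A) (B := B) (hA2.trans (by norm_num))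
    rw [← hz] at this
    exact this
  rw [e1]
  simp only [Nat.sub_eq, Nat.add_eq, Nat.mul_eq]
  refine (Nat.sub_le _ _).trans_lt ?_
  norm_num at hA2 ⊢
  omega

theorem nK_sound {x zq zy : ℕ} {xa xb qa qb ya yb : ℤ} (hx : Pk x xa xb) (hq : Pk zq qa qb)
    (hy : Pk zy ya yb) (hxa : |xa| < 2 ^ 60) (hxb : |xb| < 2 ^ 60) (hqy : |qa| < 2 ^ 50) (hqb : |qb| < 2 ^ 50)
    (hya : |ya| < 2 ^ 60) (hyb : |yb| < 2 ^ 60) :
    ‖(starRingEnd ℂ) (zc xa xb) - (1069653 / 1048576 : ℝ) * (starRingEnd ℂ) (zc ya yb) *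
      (zc qa qb / 1048576)‖ ≤ nK (cj x) zq zy := by
  set ka : ℤ := 2 ^ 40 * xa - 1069653 * (ya * qa - (-yb) * qb) with hka
  set kb : ℤ := 2 ^ 40 * (-xb) - 1069653 * (ya * qb + (-yb) * qa) with hkb
  have hmul : Rp (1069653 * cj zy * fx zq) (1069653 * (ya * qa - (-yb) * qb))
      (1069653 * (ya * qb + (-yb) * qa)) :=
    ((hy.cj.smul 1069653).mul hq.fx).congr (by push_cast; ring) (by push_cast; ring)
  have hx1 : Rp (1099511627776 * cj x) (2 ^ 40 * xa) (2 ^ 40 * (-xb)) :=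
    (hx.cj.smul 1099511627776).congr (by push_cast; norm_num) (by push_cast; norm_num)
  have hle : 1069653 * cj zy * fx zq ≤ 2 ^ 1047 := by
    have h1 := cj_lt hy
    have h2 := fx_lt hq
    calc 1069653 * cj zy * fx zq ≤ 2 ^ 21 * 2 ^ 513 * 2 ^ 513 := by gcongr; norm_num
      _ = 2 ^ 1047 := by rw [← pow_add, ← pow_add]
  have hK : Rp 55635907749862844386400314505595567251599107970324256757699365672051224279213746123593285972818168186054976565058958882713758619825090273161853126012111379394359656174561533311390475225659683285667197251952310126653913474192836146737543146243202952585597406673521972813289743485601965528304031553126466121790379271723185494320515907584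
      (2 ^ 140) (2 ^ 140) := by
    apply Rp.of_dvd
    unfold Mz tz
    norm_num
  have hs := (hx1.add hK).sub (K := 0) hmul (by norm_num) (by
    rw [add_zero]
    refine hle.trans (le_trans ?_ (Nat.le_add_left _ _))
    norm_num)
  rw [add_zero] at hs
  have hab : ∀ u v : ℤ, |u| < 2 ^ 60 → |v| < 2 ^ 50 → |u * v| ≤ 2 ^ 110 := by
    intro u v hu hv
    rw [abs_mul]
    calc |u| * |v| ≤ 2 ^ 60 * 2 ^ 50 := by gcongr
      _ = 2 ^ 110 := by norm_num
  have b1 := abs_le.1 (hab ya qa hya hqy)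
  have b2 := abs_le.1 (hab yb qb hyb hqb)
  have b3 := abs_le.1 (hab ya qb hya hqb)
  have b4 := abs_le.1 (hab yb qa hyb hqy)
  have b5 := abs_lt.1 hxa
  have b6 := abs_lt.1 hxb
  have hka' : |ka| < 2 ^ 138 := by
    rw [hka, abs_lt]; norm_num at b1 b2 b5 ⊢
    constructor <;> linarith [b1.1, b1.2, b2.1, b2.2, b5.1, b5.2]
  have hkb' : |kb| < 2 ^ 138 := by
    rw [hkb, abs_lt]; norm_num at b3 b4 b6 ⊢
    constructor <;> linarith [b3.1, b3.2, b4.1, b4.2, b6.1, b6.2]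
  have hr := rz40_sound (hs.congr (a' := ka + 2 ^ 140) (b' := kb + 2 ^ 140) (by rw [hka]; ring)
    (by rw [hkb]; ring)) hka' hkb'
  have fl : ∀ k : ℤ, (((k / 2 ^ 40 : ℤ)) : ℝ) ≤ (k : ℝ) / 2 ^ 40 ∧
      (k : ℝ) / 2 ^ 40 ≤ (((k / 2 ^ 40 : ℤ)) : ℝ) + 1 := by
    intro k
    have h1 := Int.mul_ediv_add_emod k (2 ^ 40)
    have h2 := Int.emod_nonneg k (b := 2 ^ 40) (by norm_num)
    have h3 := Int.emod_lt_of_pos k (b := 2 ^ 40) (by norm_num)
    have h4 : (2:ℤ) ^ 40 * (k / 2 ^ 40) ≤ k := by linarith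
    have h5 : k ≤ 2 ^ 40 * (k / 2 ^ 40 + 1) := by linarith
    have h6 : (2:ℝ) ^ 40 * ((k / 2 ^ 40 : ℤ) : ℝ) ≤ k := by exact_mod_cast h4
    have h7 : (k : ℝ) ≤ 2 ^ 40 * (((k / 2 ^ 40 : ℤ) : ℝ) + 1) := by exact_mod_cast h5
    constructor
    · rw [le_div_iff₀ (by positivity)]; linarith
    · rw [div_le_iff₀ (by positivity)]; linarith
  have ere : ((starRingEnd ℂ) (zc xa xb) - (1069653 / 1048576 : ℝ) * (starRingEnd ℂ) (zc ya yb) *
      (zc qa qb / 1048576)).re = (ka : ℝ) / 2 ^ 40 := by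
    have e1 : (zc qa qb / 1048576) = zc qa qb * ((1 / 1048576 : ℝ) : ℂ) := by push_cast; ring
    rw [e1, hka]
    simp only [zc, Complex.sub_re, Complex.mul_re, Complex.mul_im, Complex.conj_re, Complex.conj_im,
      Complex.ofReal_re, Complex.ofReal_im]
    push_cast
    ring
  have eim : ((starRingEnd ℂ) (zc xa xb) - (1069653 / 1048576 : ℝ) * (starRingEnd ℂ) (zc ya yb) *
      (zc qa qb / 1048576)).im = (kb : ℝ) / 2 ^ 40 := by
    have e1 : (zc qa qb / 1048576) = zc qa qb * ((1 / 1048576 : ℝ) : ℂ) := by push_cast; ring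
    rw [e1, hkb]
    simp only [zc, Complex.sub_im, Complex.mul_re, Complex.mul_im, Complex.conj_re, Complex.conj_im,
      Complex.ofReal_re, Complex.ofReal_im]
    push_cast
    ring
  unfold nK
  refine nq2_sound hr ?_ ?_ ?_ ?_
  · rw [ere]; exact (fl ka).1
  · rw [ere]; exact (fl ka).2
  · rw [eim]; exact (fl kb).1
  · rw [eim]; exact (fl kb).2

/-- the fields of a packed number are bounded by a norm bound -/
theorem zc_abs {a b : ℤ} {n : ℕ} (h : ‖zc a b‖ < n) : |a| < n ∧ |b| < n := by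
  have h1 := (Complex.abs_re_le_norm (zc a b)).trans_lt h
  have h2 := (Complex.abs_im_le_norm (zc a b)).trans_lt h
  simp only [zc] at h1 h2
  exact ⟨by exact_mod_cast h1, by exact_mod_cast h2⟩

/-- squared norm of a packed number by a product -/
theorem mm_norm {z : ℕ} {a b : ℤ} (h : Pk z a b) :
    ((mm (fx z) (cj z) : ℕ) : ℝ) = (a : ℝ) ^ 2 + (b : ℝ) ^ 2 := h.norm

/-- PRUNE -/
theorem kpr_sound {P Q t dl ra zv zp zq r zy zE zW R nW ny M : ℕ} {b a E' om : ℂ}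
    (h : kpr P Q t dl ra zv zp zq r zy zE zW R nW ny M = true) (hPQ : P + Q ≤ 4294967296)
    {ya yb ea eb wa wb qa qb : ℤ} (hy : Pk zy ya yb) (hE : Pk zE ea eb) (hW : Pk zW wa wb)
    (hq : Pk zq qa qb) (hnW : ‖zc qa qb‖ ≤ nW) (hE' : ‖E'‖ ≤ t) (hom : ‖om‖ ≤ dl)
    (hal : ‖a - zc (1024 * ((P:ℤ) - 16777216)) (1024 * ((Q:ℤ) - 16777216))‖ ≤ ra)
    (hm : ‖b - (zc ya yb + zc ea eb / 65536 * E' + zc wa wb / 65536 * om + zc qa qb / 1048576 *
      (a - zc (1024 * ((P:ℤ) - 16777216)) (1024 * ((Q:ℤ) - 16777216))))‖ ≤ R)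
    (hqa : |qa| < 2 ^ 50) (hqb : |qb| < 2 ^ 50) (hya : |ya| < 2 ^ 60) (hyb : |yb| < 2 ^ 60) :
    101 * ‖b‖ < 100 * ‖a‖ := by
  by_contra hc
  rw [not_lt] at hc
  set xa : ℤ := 1024 * ((P:ℤ) - 16777216) with hxa
  set xb : ℤ := 1024 * ((Q:ℤ) - 16777216) with hxb
  have hx : Pk (zsl P Q) xa xb := zsl_pk hPQ
  have hxa' : |xa| < 2 ^ 60 := by rw [hxa, abs_lt]; constructor <;> norm_num <;> omega
  have hxb' : |xb| < 2 ^ 60 := by rw [hxb, abs_lt]; constructor <;> norm_num <;> omega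
  have hN := nK_sound hx hq hy hxa' hxb' hqa hqb hya hyb
  have hD := dzf_sound (t := t) (dl := dl) (R := R) hE hW
  have hg := dgf_sound (nW := nW) (ra := ra)
  have hY := hy.np2
  unfold kpr kpr2 kpr3 at h
  set D := dzf t dl zE zW R with hDd
  set g := dgf nW ra with hgd
  set N := nK (cj (zsl P Q)) zq zy with hNd
  set n2 := np2 zy with hn2
  have h1 : ((1069653 * nN zy) >>> 20 + (2 * N) * ra) +
      (((1069653 * (nW * nW) - 1152921504606846976) * (ra * ra)) >>> 60 +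
        ((1069653 * (D * (2 * (n2 + g) + D))) >>> 20 + 4)) ≤ mm (fx (zsl P Q)) (cj (zsl P Q)) :=
    Nat.le_of_ble_eq_true h
  have h2 := (Nat.cast_le (α := ℝ)).2 h1
  rw [mm_norm hx] at h2
  have s1 := shr_up (n := 1069653 * nN zy) 20
  have s2 := shr_up (n := (1069653 * (nW * nW) - 1152921504606846976) * (ra * ra)) 60
  have s3 := shr_up (n := 1069653 * (D * (2 * (n2 + g) + D))) 20
  have hsub : (1069653 * ((nW:ℝ) * nW)) - 1152921504606846976 ≤
      ((1069653 * (nW * nW) - 1152921504606846976 : ℕ) : ℝ) := by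
    have : 1069653 * (nW * nW) ≤ (1069653 * (nW * nW) - 1152921504606846976) + 1152921504606846976 := by
      omega
    have h3 := (Nat.cast_le (α := ℝ)).2 this
    push_cast at h3
    linarith
  set KK : ℕ := 1069653 * (nW * nW) - 1152921504606846976 with hKK
  rw [Nat.cast_mul, hy.norm] at s1
  clear_value KK D g N n2
  clear h1
  have hMM : ‖zc qa qb / 1048576‖ ≤ (nW : ℝ) / 1048576 := by
    rw [norm_div]
    have : ‖(1048576 : ℂ)‖ = 1048576 := by simp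
    rw [this]
    gcongr
  have h4 : ‖zc ea eb / 65536‖ = ‖zc ea eb‖ / 65536 := by rw [norm_div]; simp
  have h5 : ‖zc wa wb / 65536‖ = ‖zc wa wb‖ / 65536 := by rw [norm_div]; simp
  refine LeafR.pr (a0 := b) (a := a) (ac := zc xa xb) (y := zc ya yb) (yE := zc ea eb / 65536)
    (yW := zc wa wb / 65536) (yA := zc qa qb / 1048576) (η := E') (ω := om) (ρ := t) (δ := dl)
    (t := ra) (R := R) (p := 1) (q := 1069653 / 1048576) (N := N) (Y := n2) (M := nW / 1048576)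
    (K := KK / 2 ^ 60) (dz := D) hE' hom hal hm ?_ (by norm_num) ?_ hY hMM
    (div_nonneg (Nat.cast_nonneg _) (by positivity)) ?_ ?_ ?_
  · rw [h4, h5]; exact hD
  · have e1 : ((1:ℝ) : ℂ) * (starRingEnd ℂ) (zc xa xb) = (starRingEnd ℂ) (zc xa xb) := by
      rw [Complex.ofReal_one, one_mul]
    rw [e1]
    exact hN
  · have e1 : (1069653 / 1048576 : ℝ) * ((nW:ℝ) / 1048576) ^ 2 =
        (1069653 * ((nW:ℝ) * nW)) / 2 ^ 60 := by norm_num; ring
    rw [e1]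
    have e2 : (1069653 * ((nW:ℝ) * nW)) / 2 ^ 60 - 1 = ((1069653 * ((nW:ℝ) * nW)) - 1152921504606846976) / 2 ^ 60 := by
      norm_num; ring
    have e3 : ((1069653 * ((nW:ℝ) * nW)) - 1152921504606846976) / 2 ^ 60 ≤ (KK : ℝ) / 2 ^ 60 := by
      gcongr
    linarith
  · have e1 : (100 * ‖a‖) ^ 2 ≤ (101 * ‖b‖) ^ 2 := by gcongr
    have e2 := sq_nonneg ‖b‖
    rw [mul_pow, mul_pow] at e1
    norm_num at e1 ⊢
    linarith
  · have t1 : (nW:ℝ) / 1048576 * ra ≤ g := hg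
    have t2 : (D:ℝ) * ((n2:ℝ) + (nW:ℝ) / 1048576 * ra) ≤ (D:ℝ) * ((n2:ℝ) + g) :=
      mul_le_mul_of_nonneg_left (by linarith) (Nat.cast_nonneg D)
    have c1 : (((1069653 * (D * (2 * (n2 + g) + D)) : ℕ)) : ℝ) =
        1069653 * ((D:ℝ) * (2 * ((n2:ℝ) + g) + D)) := by push_cast; ring
    have c2 : (((KK * (ra * ra) : ℕ)) : ℝ) = (KK:ℝ) * (ra:ℝ) ^ 2 := by push_cast; ring
    rw [c1] at s3
    rw [c2] at s2
    push_cast at h2 s1
    show (1069653 / 1048576 : ℝ) * ((ya:ℝ) ^ 2 + (yb:ℝ) ^ 2) + 2 * (N:ℝ) * ra + (KK:ℝ) / 2 ^ 60 * (ra:ℝ) ^ 2 +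
      1069653 / 1048576 * (2 * (D:ℝ) * ((n2:ℝ) + (nW:ℝ) / 1048576 * ra) + (D:ℝ) ^ 2) <
      1 * ((xa:ℝ) ^ 2 + (xb:ℝ) ^ 2)
    have c3 : (KK:ℝ) / 2 ^ 60 * (ra:ℝ) ^ 2 = (KK:ℝ) * (ra:ℝ) ^ 2 / 2 ^ 60 := by ring
    have c4 : (1069653 / 1048576 : ℝ) * ((ya:ℝ) ^ 2 + (yb:ℝ) ^ 2) =
        1069653 * ((ya:ℝ) ^ 2 + (yb:ℝ) ^ 2) / 2 ^ 20 := by norm_num; ring
    have c5 : (1069653 / 1048576 : ℝ) * (2 * (D:ℝ) * ((n2:ℝ) + (nW:ℝ) / 1048576 * ra) + (D:ℝ) ^ 2) ≤
        1069653 * ((D:ℝ) * (2 * ((n2:ℝ) + g) + D)) / 2 ^ 20 := by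
      have e1 : 1069653 * ((D:ℝ) * (2 * ((n2:ℝ) + g) + D)) / 2 ^ 20 =
          1069653 / 1048576 * (2 * ((D:ℝ) * ((n2:ℝ) + g)) + (D:ℝ) ^ 2) := by norm_num; ring
      have e2 : (1069653 / 1048576 : ℝ) * (2 * (D:ℝ) * ((n2:ℝ) + (nW:ℝ) / 1048576 * ra) + (D:ℝ) ^ 2) =
          1069653 / 1048576 * (2 * ((D:ℝ) * ((n2:ℝ) + (nW:ℝ) / 1048576 * ra)) + (D:ℝ) ^ 2) := by ring
      rw [e1, e2]
      linarith
    rw [c3, c4]
    linarith

end Pool.Agent.W_4481_h69.LeafK
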