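import Mathlib

/-!
Real lemmas for the slope leaves of the forward tree, in the form of the final state of the slope
chain: `a₀ = y + yE η + yW ω + yA α + rest`, `η = e - ec`, `ω = w - wc - μ η`, `α = a - ac`.
-/

namespace Pool.Agent.W_4481_h69.LeafR

open Complex

/-- total radius of the value -/
theorem tot {a0 y yE yW yA η ω α : ℂ} {ρ δ t R D : ℝ} (hη : ‖η‖ ≤ ρ) (hω : ‖ω‖ ≤ δ) (hα : ‖α‖ ≤ t)
    (h : ‖a0 - (y + yE * η + yW * ω + yA * α)‖ ≤ R)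
    (hD : ‖yE‖ * ρ + ‖yW‖ * δ + ‖yA‖ * t + R ≤ D) : ‖a0 - y‖ ≤ D := by
  have e1 : a0 - y = (a0 - (y + yE * η + yW * ω + yA * α)) + yE * η + yW * ω + yA * α := by ring
  rw [e1]
  have n1 := norm_add_le ((a0 - (y + yE * η + yW * ω + yA * α)) + yE * η + yW * ω) (yA * α)
  have n2 := norm_add_le ((a0 - (y + yE * η + yW * ω + yA * α)) + yE * η) (yW * ω)
  have n3 := norm_add_le (a0 - (y + yE * η + yW * ω + yA * α)) (yE * η)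
  have n4 : ‖yE * η‖ ≤ ‖yE‖ * ρ := by rw [norm_mul]; gcongr
  have n5 : ‖yW * ω‖ ≤ ‖yW‖ * δ := by rw [norm_mul]; gcongr
  have n6 : ‖yA * α‖ ≤ ‖yA‖ * t := by rw [norm_mul]; gcongr
  linarith

/-- RANGE low -/
theorem rlo {a0 y : ℂ} {D A : ℝ} (h : ‖a0 - y‖ ≤ D) (h1 : A ≤ ‖a0‖) (h2 : D ≤ A)
    (hp : y.re ^ 2 + y.im ^ 2 < (A - D) ^ 2) : False := by
  have h3 := norm_sub_norm_le a0 y
  have h4 : ‖y‖ ^ 2 = y.re ^ 2 + y.im ^ 2 := by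
    rw [← Complex.normSq_eq_norm_sq, Complex.normSq_apply]; ring
  rw [← h4] at hp
  have h5 := lt_of_pow_lt_pow_left₀ 2 (by linarith) hp
  linarith

/-- RANGE high -/
theorem rhi {a0 y : ℂ} {D A : ℝ} (h : ‖a0 - y‖ ≤ D) (h1 : ‖a0‖ ≤ A)
    (hp : (A + D) ^ 2 < y.re ^ 2 + y.im ^ 2) : False := by
  have h3 := norm_sub_norm_le y a0
  rw [norm_sub_rev] at h3
  have h4 : ‖y‖ ^ 2 = y.re ^ 2 + y.im ^ 2 := by
    rw [← Complex.normSq_eq_norm_sq, Complex.normSq_apply]; ring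
  rw [← h4] at hp
  have h5 := lt_of_pow_lt_pow_left₀ 2 (norm_nonneg _) hp
  linarith

/-- PRUNE, squared form, exact in the slope cell.  `p |a|^2 ≤ q |a₀|^2`, `α = a - ac`, `N` bounds
`|p conj ac - q conj y yA|`, `dz` bounds the part of `a₀` that does not depend on `α`. -/
theorem pr {a0 a ac y yE yW yA η ω : ℂ} {ρ δ t R p q N Y M K dz : ℝ} (hη : ‖η‖ ≤ ρ) (hω : ‖ω‖ ≤ δ)
    (hα : ‖a - ac‖ ≤ t) (h : ‖a0 - (y + yE * η + yW * ω + yA * (a - ac))‖ ≤ R)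
    (hdz : ‖yE‖ * ρ + ‖yW‖ * δ + R ≤ dz) (hq0 : 0 ≤ q)
    (hN : ‖(p:ℂ) * (starRingEnd ℂ) ac - q * (starRingEnd ℂ) y * yA‖ ≤ N)
    (hY : ‖y‖ ≤ Y) (hM : ‖yA‖ ≤ M) (hK0 : 0 ≤ K) (hK : q * M ^ 2 ≤ p + K)
    (hb : p * ‖a‖ ^ 2 ≤ q * ‖a0‖ ^ 2)
    (hfin : q * (y.re ^ 2 + y.im ^ 2) + 2 * N * t + K * t ^ 2 + q * (2 * dz * (Y + M * t) + dz ^ 2) <
      p * (ac.re ^ 2 + ac.im ^ 2)) : False := by
  have hn : ∀ z : ℂ, ‖z‖ ^ 2 = z.re ^ 2 + z.im ^ 2 := fun z => by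
    rw [← Complex.normSq_eq_norm_sq, Complex.normSq_apply]; ring
  have ht : 0 ≤ t := (norm_nonneg _).trans hα
  have hz : ‖a0 - (y + yA * (a - ac))‖ ≤ dz := by
    have e1 : a0 - (y + yA * (a - ac)) =
        (a0 - (y + yE * η + yW * ω + yA * (a - ac))) + yE * η + yW * ω := by ring
    rw [e1]
    have n2 := norm_add_le ((a0 - (y + yE * η + yW * ω + yA * (a - ac))) + yE * η) (yW * ω)
    have n3 := norm_add_le (a0 - (y + yE * η + yW * ω + yA * (a - ac))) (yE * η)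
    have n4 : ‖yE * η‖ ≤ ‖yE‖ * ρ := by rw [norm_mul]; gcongr
    have n5 : ‖yW * ω‖ ≤ ‖yW‖ * δ := by rw [norm_mul]; gcongr
    linarith
  have hdz0 : 0 ≤ dz := (norm_nonneg _).trans hz
  -- the norm of a₀
  have hv : ‖y + yA * (a - ac)‖ ≤ Y + M * t := by
    refine (norm_add_le _ _).trans ?_
    rw [norm_mul]
    gcongr
    exact (norm_nonneg _).trans hM
  have h0 : ‖a0‖ ≤ ‖y + yA * (a - ac)‖ + dz := by
    have := norm_sub_norm_le a0 (y + yA * (a - ac))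
    linarith
  have h1 : ‖a0‖ ^ 2 ≤ ‖y + yA * (a - ac)‖ ^ 2 + (2 * dz * (Y + M * t) + dz ^ 2) := by
    have h2 : ‖a0‖ ^ 2 ≤ (‖y + yA * (a - ac)‖ + dz) ^ 2 := by gcongr
    have h3 : ‖y + yA * (a - ac)‖ * dz ≤ (Y + M * t) * dz := by gcongr
    calc ‖a0‖ ^ 2 ≤ (‖y + yA * (a - ac)‖ + dz) ^ 2 := h2
      _ = ‖y + yA * (a - ac)‖ ^ 2 + 2 * (‖y + yA * (a - ac)‖ * dz) + dz ^ 2 := by ring
      _ ≤ ‖y + yA * (a - ac)‖ ^ 2 + 2 * ((Y + M * t) * dz) + dz ^ 2 := by linarith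
      _ = _ := by ring
  -- the exact quadratic form in α
  have e2 : p * ‖a‖ ^ 2 - q * ‖y + yA * (a - ac)‖ ^ 2 =
      p * (ac.re ^ 2 + ac.im ^ 2) - q * (y.re ^ 2 + y.im ^ 2) +
      2 * (((p:ℂ) * (starRingEnd ℂ) ac - q * (starRingEnd ℂ) y * yA) * (a - ac)).re +
      (p - q * ‖yA‖ ^ 2) * ‖a - ac‖ ^ 2 := by
    rw [hn, hn, hn, hn]
    simp only [Complex.add_re, Complex.add_im, Complex.mul_re, Complex.mul_im, Complex.sub_re,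
      Complex.sub_im, Complex.conj_re, Complex.conj_im, Complex.ofReal_re, Complex.ofReal_im]
    ring
  have h4 : -(N * t) ≤ (((p:ℂ) * (starRingEnd ℂ) ac - q * (starRingEnd ℂ) y * yA) * (a - ac)).re := by
    have h5 := Complex.abs_re_le_norm (((p:ℂ) * (starRingEnd ℂ) ac - q * (starRingEnd ℂ) y * yA) * (a - ac))
    have h6 : ‖((p:ℂ) * (starRingEnd ℂ) ac - q * (starRingEnd ℂ) y * yA) * (a - ac)‖ ≤ N * t := by
      rw [norm_mul]; gcongr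
      exact (norm_nonneg _).trans hN
    exact (abs_le.1 (h5.trans h6)).1
  have h7 : -(K * t ^ 2) ≤ (p - q * ‖yA‖ ^ 2) * ‖a - ac‖ ^ 2 := by
    have h8 : ‖yA‖ ^ 2 ≤ M ^ 2 := by gcongr
    have h8' : q * ‖yA‖ ^ 2 ≤ q * M ^ 2 := by gcongr
    have h9 : -K ≤ p - q * ‖yA‖ ^ 2 := by linarith
    have h10 : ‖a - ac‖ ^ 2 ≤ t ^ 2 := by gcongr
    have h11 : 0 ≤ ‖a - ac‖ ^ 2 := by positivity
    have h12 : -K * ‖a - ac‖ ^ 2 ≤ (p - q * ‖yA‖ ^ 2) * ‖a - ac‖ ^ 2 :=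
      mul_le_mul_of_nonneg_right h9 h11
    have h13 : K * ‖a - ac‖ ^ 2 ≤ K * t ^ 2 := mul_le_mul_of_nonneg_left h10 hK0
    linarith
  have h12 : q * ‖a0‖ ^ 2 ≤ q * (‖y + yA * (a - ac)‖ ^ 2 + (2 * dz * (Y + M * t) + dz ^ 2)) := by gcongr
  have h13 : q * (‖y + yA * (a - ac)‖ ^ 2 + (2 * dz * (Y + M * t) + dz ^ 2)) =
      q * ‖y + yA * (a - ac)‖ ^ 2 + q * (2 * dz * (Y + M * t) + dz ^ 2) := by ring
  linarith

/-- PW: the value is a contraction of the past slope -/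
theorem pw {a0 a G S : ℂ} {M Sb A : ℝ} (h : a0 = G * a + S) (hM : ‖G‖ ≤ M) (hS : ‖S‖ ≤ Sb)
    (hb : 100 * ‖a‖ ≤ 101 * ‖a0‖) (hA0 : 0 ≤ A) (hA : A ≤ ‖a0‖) (hp : 100 * Sb + 101 * M * A < 100 * A) :
    False := by
  have h1 : ‖a0‖ ≤ ‖G‖ * ‖a‖ + ‖S‖ := by
    rw [h]; refine (norm_add_le _ _).trans ?_
    rw [norm_mul]
  have hM0 : 0 ≤ M := (norm_nonneg _).trans hM
  have hS0 : 0 ≤ Sb := (norm_nonneg _).trans hS
  have h2 : ‖G‖ * ‖a‖ ≤ M * ‖a‖ := by gcongr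
  have h2' : M * (100 * ‖a‖) ≤ M * (101 * ‖a0‖) := mul_le_mul_of_nonneg_left hb hM0
  have h5 : ‖a0‖ * (100 - 101 * M) ≤ 100 * Sb := by linarith
  have h4 : 100 * Sb < A * (100 - 101 * M) := by linarith
  have hc : 0 < 100 - 101 * M := by
    by_contra hc
    have := mul_nonpos_of_nonneg_of_nonpos hA0 (not_lt.1 hc)
    linarith
  have := mul_le_mul_of_nonneg_right hA hc.le
  linarith

end Pool.Agent.W_4481_h69.LeafR
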