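import Pool.Agent.W_4481e3_q59.DeadA

/-!
No real point of a one sided family is captured, whatever its base orbit.
-/

open Filter Topology Set

namespace Pool.Agent.W_4481e3_h1

variable {e : ℂ} {ρ A : ℝ} {b : ℕ → ℝ} {V : ℕ → ℝ → ℂ}

/-- local linear bound of the deviation at `s` -/
def LocLip (V : ℕ → ℝ → ℂ) (k : ℕ) (s : ℝ) : Prop :=
  ∃ P h : ℝ, 0 ≤ P ∧ 0 < h ∧ ∀ t, |t| ≤ h → ‖V k (s + t) - V k s‖ ≤ P * |t|

lemma Fam.dev_step (hV : Fam e ρ A b V) {k : ℕ} {s t : ℝ} (h1 : |s| ≤ ρ * 2 ^ k)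
    (h2 : |s + t| ≤ ρ * 2 ^ k) :
    V (k + 1) (2 * s + 2 * t) - V (k + 1) (2 * s) =
      (V k (s + t) - V k s) * (1 - cs b k (s + t) * (2 * V k s + (V k (s + t) - V k s))) +
      ((cs b k (s + t) - cs b k s : ℝ) : ℂ) * (e - V k s ^ 2) := by
  rw [← mul_add, hV.recur k _ h2, hV.recur k _ h1]
  unfold cs
  push_cast
  ring

lemma Fam.dev_bound (hV : Fam e ρ A b V) {k : ℕ} {s t : ℝ} (h1 : |s| ≤ ρ * 2 ^ k)
    (h2 : |s + t| ≤ ρ * 2 ^ k) :
    ‖V (k + 1) (2 * s + 2 * t) - V (k + 1) (2 * s)‖ ≤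
      ‖V k (s + t) - V k s‖ * (1 + (2 * ‖V k s‖ + ‖V k (s + t) - V k s‖)) +
      2 * Real.pi * |t| * ‖e - V k s ^ 2‖ := by
  rw [hV.dev_step h1 h2]
  refine (norm_add_le _ _).trans (add_le_add ?_ ?_)
  · rw [norm_mul]
    gcongr
    refine (norm_sub_le _ _).trans ?_
    rw [norm_one, norm_mul, Complex.norm_real, Real.norm_eq_abs]
    have h3 := abs_cs_le (b := b) k (s + t)
    have h4 : ‖2 * V k s + (V k (s + t) - V k s)‖ ≤ 2 * ‖V k s‖ + ‖V k (s + t) - V k s‖ := by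
      refine (norm_add_le _ _).trans (le_of_eq ?_)
      rw [norm_mul, Complex.norm_ofNat]
    have h5 : |cs b k (s + t)| * ‖2 * V k s + (V k (s + t) - V k s)‖ ≤
        1 * (2 * ‖V k s‖ + ‖V k (s + t) - V k s‖) := by gcongr
    linarith
  · rw [norm_mul, Complex.norm_real, Real.norm_eq_abs]
    gcongr
    exact cs_lip k s t

lemma Fam.locLip_succ (hV : Fam e ρ A b V) {k : ℕ} {s : ℝ} (hs : |s| < ρ * 2 ^ k)
    (h : LocLip V k s) : LocLip V (k + 1) (2 * s) := by
  obtain ⟨P, h, hP, hh, hb⟩ := h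
  have hpi := Real.pi_pos
  set h' := min (min h (ρ * 2 ^ k - |s|)) (1 / (P + 1)) with hh'
  have hh0 : 0 < h' := lt_min (lt_min hh (by linarith)) (by positivity)
  refine ⟨(P * (2 + 2 * ‖V k s‖) + 2 * Real.pi * ‖e - V k s ^ 2‖) / 2, 2 * h', by positivity,
    by positivity, ?_⟩
  intro t' ht'
  obtain ⟨t, rfl⟩ : ∃ t, t' = 2 * t := ⟨t' / 2, by ring⟩
  have ht : |t| ≤ h' := by
    rw [abs_mul, abs_two] at ht'; linarith
  have ht1 : |t| ≤ h := ht.trans ((min_le_left _ _).trans (min_le_left _ _))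
  have ht2 : |t| ≤ ρ * 2 ^ k - |s| := ht.trans ((min_le_left _ _).trans (min_le_right _ _))
  have ht3 : |t| ≤ 1 / (P + 1) := ht.trans (min_le_right _ _)
  have h5 := hV.dev_bound hs.le (show |s + t| ≤ ρ * 2 ^ k from (abs_add_le _ _).trans (by linarith))
  have h6 := hb t ht1
  have h7 : ‖V k (s + t) - V k s‖ ≤ 1 := by
    refine h6.trans ?_
    calc P * |t| ≤ (P + 1) * (1 / (P + 1)) := by
          gcongr
          linarith
      _ = 1 := by field_simp
  refine h5.trans ?_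
  rw [abs_mul, abs_two]
  calc _ ≤ (P * |t|) * (1 + (2 * ‖V k s‖ + 1)) + 2 * Real.pi * |t| * ‖e - V k s ^ 2‖ := by gcongr
    _ = _ := by ring

/-- **No capture at any base.** -/
theorem Fam.no_capture_gen (hV : Fam e ρ A b V) {ζ : ℂ} (hζ : ζ ^ 2 = e) (hz : 2 * ‖ζ‖ < 1)
    {R : ℝ} (hR : 0 < R)
    (near : ∀ (k : ℕ) (a : ℝ), -(ρ * 2 ^ k) ≤ a → a + 1 ≤ ρ * 2 ^ k →
      ∃ t ∈ Icc a (a + 1), R ≤ ‖V k t - ζ‖) {k : ℕ} {s : ℝ} (hs : |s| < ρ * 2 ^ k)
    (hL : LocLip V k s) :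
    ¬ Tendsto (fun j => V (k + j) (2 ^ j * s)) atTop (𝓝 ζ) := by
  intro hlim
  have hpi := Real.pi_pos
  have hζ0 := norm_nonneg ζ
  -- constants
  set d := (1 - 2 * ‖ζ‖) / 6 with hd
  have hd0 : 0 < d := by rw [hd]; linarith
  set lam := 1 + 2 * ‖ζ‖ + 3 * d with hlam
  have hlam2 : lam < 2 := by rw [hlam, hd]; linarith
  have hlam0 : 1 ≤ lam := by rw [hlam]; linarith
  set δ := min (min d (R / 4)) ((2 - lam) * min d R / (16 * Real.pi)) with hδ
  have hδ0 : 0 < δ := by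
    have : 0 < min d R := lt_min hd0 hR
    have : 0 < 2 - lam := by linarith
    positivity
  have hδd : δ ≤ d := (min_le_left _ _).trans (min_le_left _ _)
  have hδR : δ ≤ R / 4 := (min_le_left _ _).trans (min_le_right _ _)
  set P0 := 8 * Real.pi * δ / (2 - lam) with hP0
  have h2l : 0 < 2 - lam := by linarith
  have hP00 : 0 < P0 := by positivity
  have hP0b : P0 ≤ min d R / 2 := by
    rw [hP0, div_le_iff₀ h2l]
    have : δ ≤ (2 - lam) * min d R / (16 * Real.pi) := min_le_right _ _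
    rw [le_div_iff₀ (by positivity)] at this
    linarith
  have hP0d : P0 ≤ d := by
    have := min_le_left d R
    have : 0 < min d R := lt_min hd0 hR
    linarith [min_le_left d R]
  have hP0R : P0 ≤ R / 2 := by linarith [min_le_right d R]
  -- windows
  have hs2 : ∀ j : ℕ, |2 ^ j * s| < ρ * 2 ^ (k + j) := by
    intro j
    rw [abs_mul, abs_of_pos (by positivity : (0:ℝ) < 2 ^ j), pow_add, ← mul_assoc, mul_comm]
    exact mul_lt_mul_of_pos_right hs (by positivity)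
  have hLj : ∀ j : ℕ, LocLip V (k + j) (2 ^ j * s) := by
    intro j
    induction j with
    | zero => simpa using hL
    | succ j ih =>
      have := hV.locLip_succ (hs2 j) ih
      have e1 : (2:ℝ) ^ (j + 1) * s = 2 * (2 ^ j * s) := by rw [pow_succ]; ring
      rw [e1, ← add_assoc]
      exact this
  -- large times
  have hwin : ∀ᶠ j : ℕ in atTop, |2 ^ j * s| + 1 ≤ ρ * 2 ^ (k + j) := by
    have t3 : Tendsto (fun i : ℕ => (ρ * 2 ^ k - |s|) * (2:ℝ) ^ i) atTop atTop :=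
      (tendsto_pow_atTop_atTop_of_one_lt (by norm_num)).const_mul_atTop (by linarith)
    filter_upwards [t3.eventually_ge_atTop 1] with j hj
    rw [abs_mul, abs_of_pos (by positivity : (0:ℝ) < 2 ^ j), pow_add]
    linarith
  have hclose : ∀ᶠ j : ℕ in atTop, ‖V (k + j) (2 ^ j * s) - ζ‖ ≤ δ := by
    have := Metric.tendsto_nhds.1 hlim δ hδ0
    filter_upwards [this] with j hj
    rw [dist_eq_norm] at hj
    exact hj.le
  obtain ⟨j0, hj0⟩ := eventually_atTop.1 (hwin.and hclose)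
  -- one step
  have hstep : ∀ j ≥ j0, ∀ P h : ℝ, 0 ≤ P → 0 ≤ h → h ≤ 1 → P * h ≤ d →
      (∀ t, |t| ≤ h → ‖V (k + j) (2 ^ j * s + t) - V (k + j) (2 ^ j * s)‖ ≤ P * |t|) →
      ∀ t, |t| ≤ 2 * h → ‖V (k + (j + 1)) (2 ^ (j + 1) * s + t) - V (k + (j + 1)) (2 ^ (j + 1) * s)‖ ≤
        (lam * P + 4 * Real.pi * δ) / 2 * |t| := by
    intro j hj P h hP hh hh1 hPh hb t' ht'
    obtain ⟨t, rfl⟩ : ∃ t, t' = 2 * t := ⟨t' / 2, by ring⟩
    have ht : |t| ≤ h := by
      rw [abs_mul, abs_two] at ht'; linarith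
    obtain ⟨hw, hc⟩ := hj0 j hj
    have e1 : (2:ℝ) ^ (j + 1) * s = 2 * (2 ^ j * s) := by rw [pow_succ]; ring
    have h5 := hV.dev_bound (k := k + j) (s := 2 ^ j * s) (t := t) (by linarith)
      ((abs_add_le _ _).trans (by linarith))
    rw [e1, ← add_assoc]
    have h6 := hb t ht
    set o := V (k + j) (2 ^ j * s) with ho
    have h7 : ‖V (k + j) (2 ^ j * s + t) - o‖ ≤ d := by
      refine h6.trans (le_trans ?_ hPh)
      gcongr
    have h8 : ‖o‖ ≤ ‖ζ‖ + δ := by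
      have := norm_add_le (o - ζ) ζ
      rw [sub_add_cancel] at this
      linarith
    have h9 : ‖e - o ^ 2‖ ≤ 2 * δ := by
      rw [← hζ, show ζ ^ 2 - o ^ 2 = -((o - ζ) * (o + ζ)) by ring, norm_neg, norm_mul]
      have : ‖o + ζ‖ ≤ 2 := by
        refine (norm_add_le _ _).trans ?_
        linarith
      calc ‖o - ζ‖ * ‖o + ζ‖ ≤ δ * 2 := by gcongr
        _ = 2 * δ := by ring
    refine h5.trans ?_
    rw [abs_mul, abs_two]
    have hfac : 1 + (2 * ‖o‖ + ‖V (k + j) (2 ^ j * s + t) - o‖) ≤ lam := by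
      rw [hlam]; linarith
    calc _ ≤ (P * |t|) * lam + 2 * Real.pi * |t| * (2 * δ) := by gcongr
      _ = _ := by ring
  -- phase 1: the slope comes down
  obtain ⟨P, h, hP, hh, hb⟩ := hLj j0
  set h1 := min (min h 1) (d / (P + P0 + 1)) with hh1
  have hh10 : 0 < h1 := lt_min (lt_min hh one_pos) (by positivity)
  have hh11 : h1 ≤ 1 := (min_le_left _ _).trans (min_le_right _ _)
  have hph1 : ∀ i : ℕ, ∀ t, |t| ≤ h1 →
      ‖V (k + (j0 + i)) (2 ^ (j0 + i) * s + t) - V (k + (j0 + i)) (2 ^ (j0 + i) * s)‖ ≤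
        ((lam / 2) ^ i * P + P0 / 2) * |t| := by
    intro i
    induction i with
    | zero =>
      intro t ht
      refine (hb t (ht.trans ((min_le_left _ _).trans (min_le_left _ _)))).trans ?_
      rw [pow_zero, one_mul]
      gcongr
      linarith
    | succ i ih =>
      intro t ht
      have hq : (lam / 2) ^ i ≤ 1 := pow_le_one₀ (by positivity) (by linarith)
      have hq0 : 0 ≤ (lam / 2) ^ i := by positivity
      have hPh : ((lam / 2) ^ i * P + P0 / 2) * h1 ≤ d := by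
        have hx : (lam / 2) ^ i * P ≤ 1 * P := by gcongr
        calc ((lam / 2) ^ i * P + P0 / 2) * h1 ≤ (P + P0 + 1) * h1 :=
              mul_le_mul_of_nonneg_right (by linarith) hh10.le
          _ ≤ (P + P0 + 1) * (d / (P + P0 + 1)) :=
              mul_le_mul_of_nonneg_left (min_le_right _ _) (by linarith)
          _ = d := by field_simp
      have h2 := hstep (j0 + i) (by omega) _ h1 (by positivity) hh10.le hh11 hPh ih t
        (by linarith)
      refine h2.trans ?_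
      gcongr
      have : P0 * (2 - lam) = 8 * Real.pi * δ := by rw [hP0]; field_simp
      rw [pow_succ]
      linarith
  obtain ⟨i0, hi0⟩ : ∃ i0 : ℕ, (lam / 2) ^ i0 * P ≤ P0 / 2 := by
    have t1 : Tendsto (fun i : ℕ => (lam / 2) ^ i * P) atTop (𝓝 (0 * P)) :=
      (tendsto_pow_atTop_nhds_zero_of_lt_one (by positivity) (by linarith)).mul_const P
    rw [zero_mul] at t1
    exact (t1.eventually (Iic_mem_nhds (by positivity))).exists
  -- phase 2: the window grows
  have hph2 : ∀ i : ℕ, ∀ t, |t| ≤ min (2 ^ i * h1) 1 →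
      ‖V (k + (j0 + i0 + i)) (2 ^ (j0 + i0 + i) * s + t) -
        V (k + (j0 + i0 + i)) (2 ^ (j0 + i0 + i) * s)‖ ≤ P0 * |t| := by
    intro i
    induction i with
    | zero =>
      intro t ht
      rw [pow_zero, one_mul] at ht
      refine (hph1 i0 t (ht.trans (min_le_left _ _))).trans ?_
      gcongr
      linarith
    | succ i ih =>
      intro t ht
      have h2 := hstep (j0 + i0 + i) (by omega) P0 (min (2 ^ i * h1) 1) hP00.le (by positivity)
        (min_le_right _ _) (by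
          calc P0 * min (2 ^ i * h1) 1 ≤ P0 * 1 := by gcongr; exact min_le_right _ _
            _ ≤ d := by linarith) ih t (by
          refine ht.trans ?_
          rw [mul_min_of_nonneg _ _ (by norm_num : (0:ℝ) ≤ 2)]
          apply min_le_min
          · rw [pow_succ]; linarith
          · linarith)
      refine h2.trans ?_
      gcongr
      have : P0 * (2 - lam) = 8 * Real.pi * δ := by rw [hP0]; field_simp
      have h6 : 0 < Real.pi * δ := by positivity
      linarith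
  obtain ⟨i, hi⟩ : ∃ i : ℕ, 1 ≤ 2 ^ i * h1 := by
    have t1 : Tendsto (fun i : ℕ => (2:ℝ) ^ i * h1) atTop atTop :=
      (tendsto_pow_atTop_atTop_of_one_lt (by norm_num)).atTop_mul_const hh10
    exact (t1.eventually_ge_atTop 1).exists
  obtain ⟨hw, hc⟩ := hj0 (j0 + i0 + i) (by omega)
  have hw' := abs_le.1 (show |2 ^ (j0 + i0 + i) * s| ≤ ρ * 2 ^ (k + (j0 + i0 + i)) - 1 by linarith)
  obtain ⟨t, ⟨ht1, ht2⟩, ht3⟩ := near (k + (j0 + i0 + i)) (2 ^ (j0 + i0 + i) * s)
    (by linarith [hw'.1]) (by linarith [hw'.2])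
  have htt : |t - 2 ^ (j0 + i0 + i) * s| ≤ 1 := by rw [abs_le]; constructor <;> linarith
  have h5 := hph2 i (t - 2 ^ (j0 + i0 + i) * s) (le_min (htt.trans hi) htt)
  rw [add_sub_cancel] at h5
  have h6 : ‖V (k + (j0 + i0 + i)) t - ζ‖ ≤ P0 * 1 + δ := by
    have e2 : V (k + (j0 + i0 + i)) t - ζ = (V (k + (j0 + i0 + i)) t -
      V (k + (j0 + i0 + i)) (2 ^ (j0 + i0 + i) * s)) +
      (V (k + (j0 + i0 + i)) (2 ^ (j0 + i0 + i) * s) - ζ) := by ring
    rw [e2]
    refine (norm_add_le _ _).trans (add_le_add (h5.trans ?_) hc)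
    gcongr
  linarith

end Pool.Agent.W_4481e3_h1
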