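import Pool.Agent.W_4481_h69.NoCap
import Pool.Agent.W_4481e3_q59.AliveP

/-!
No real point of a leaf family `Fam2` is captured, whatever its base orbit.
-/

open Filter Topology Set

namespace Pool.Agent.W_4481e3_q59

open Pool.Agent.W_4481e3_h1 Pool.Agent.W_4481e3_q42 Pool.Agent.W_MP_4481e3_an

variable {ε : ℂ} {ρ A K : ℝ} {V : ℕ → ℝ → ℂ}

lemma locLip_fam2 (hF : Fam2 ε ρ A K V) {k : ℕ} {t : ℝ} (h : |t| < ρ * 2 ^ k) : LocLip V k t := by
  have hV := fam_of_fam2 hF
  have key : ∀ (k : ℕ) (s : ℝ), |s| < ρ → LocLip V k (2 ^ k * s) := by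
    intro k s hs
    induction k with
    | zero =>
      refine ⟨|K|, ρ - |s|, abs_nonneg _, by linarith, fun u hu => ?_⟩
      rw [pow_zero, one_mul]
      have h1 : |s + u| ≤ ρ := (abs_add_le _ _).trans (by linarith)
      have h2 := hF.lip (s + u) s h1 hs.le
      rw [add_sub_cancel_left] at h2
      exact h2.trans (mul_le_mul_of_nonneg_right (le_abs_self K) (abs_nonneg _))
    | succ k ih =>
      have h1 : |2 ^ k * s| < ρ * 2 ^ k := by
        rw [abs_mul, abs_of_pos (by positivity : (0:ℝ) < 2 ^ k), mul_comm]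
        exact mul_lt_mul_of_pos_right hs (by positivity)
      have h2 := hV.locLip_succ h1 ih
      have e1 : (2:ℝ) ^ (k + 1) * s = 2 * (2 ^ k * s) := by rw [pow_succ]; ring
      rw [e1]
      exact h2
  have h1 : |t / 2 ^ k| < ρ := by
    rw [abs_div, abs_of_pos (by positivity : (0:ℝ) < 2 ^ k), div_lt_iff₀ (by positivity)]
    exact h
  have h2 := key k (t / 2 ^ k) h1
  rwa [mul_div_cancel₀ t (by positivity : (2:ℝ) ^ k ≠ 0)] at h2

/-- **No capture at any real point.** -/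
theorem nc_any (hF : Fam2 ε ρ A K V) (hlt : ‖ε‖ < 1 / 2) {k : ℕ} {t : ℝ} (h : Dm ρ k t) :
    ¬ Tendsto (orb (ε ^ 2) (2 ^ k / 15 + t) (V k t)) atTop (𝓝 ε) ∧
    ¬ Tendsto (orb (ε ^ 2) (2 ^ k / 15 + t) (V k t)) atTop (𝓝 (-ε)) := by
  have hV := fam_of_fam2 hF
  obtain ⟨R, hR, hnear⟩ := hF.near 1 one_pos
  have hL := locLip_fam2 hF h.lt
  constructor
  · intro hT
    refine hV.no_capture_gen (ζ := ε) rfl (by linarith) hR
      (fun k a h1 h2 => (hnear k a h1 h2).1) h.lt hL ?_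
    refine hT.congr fun j => ?_
    exact (orb_eq hF h j).2
  · intro hT
    refine hV.no_capture_gen (ζ := -ε) (by ring) (by rw [norm_neg]; linarith) hR
      (fun k a h1 h2 => ?_) h.lt hL ?_
    · obtain ⟨t, ht, h3⟩ := (hnear k a h1 h2).2
      exact ⟨t, ht, by rwa [sub_neg_eq_add]⟩
    · refine hT.congr fun j => ?_
      exact (orb_eq hF h j).2

end Pool.Agent.W_4481e3_q59
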