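import Pool.Agent.W_4481_h69.Ultra
import Pool.Agent.W_4481_h69.Green

/-!
Rigidity of two-sided families of entire functions of exponential type over a quadratic map,
bounded on the real line (filled Julia set version).
-/

open Filter Topology Real Set

namespace Pool.Agent.W_4481_h69

/-- two-sided families -/
structure Fam (κ : ℂ) (R C : ℝ) (W : ℤ → ℂ → ℂ) : Prop where
  diff : ∀ k, Differentiable ℂ (W k)
  grow : ∀ k z, ‖W k z‖ ≤ R * Real.exp (C * |z.im|)
  step : ∀ k z, W (k + 1) (2 * z) = Q κ (W k z)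

namespace Fam

variable {κ : ℂ} {R C : ℝ} {W : ℤ → ℂ → ℂ}

lemma shift (h : Fam κ R C W) (j : ℤ) : Fam κ R C (fun k => W (k + j)) where
  diff k := h.diff _
  grow k z := h.grow _ z
  step k z := by
    show W (k + 1 + j) (2 * z) = _
    rw [show k + 1 + j = k + j + 1 by ring]
    exact h.step _ z

lemma trans (h : Fam κ R C W) (x : ℝ) :
    Fam κ R C (fun k z => W k (z + (2:ℂ) ^ k * x)) where
  diff k := (h.diff k).comp (differentiable_id.add_const _)
  grow k z := by
    refine (h.grow k _).trans (le_of_eq ?_)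
    have : (z + (2:ℂ) ^ k * x).im = z.im := by
      have : ((2:ℂ) ^ k * x).im = 0 := by
        have h2 : ((2:ℂ) ^ k * x) = (((2:ℝ) ^ k * x : ℝ) : ℂ) := by push_cast; ring
        rw [h2]; exact Complex.ofReal_im _
      rw [Complex.add_im, this, add_zero]
    rw [this]
  step k z := by
    have : 2 * z + (2:ℂ) ^ (k + 1) * x = 2 * (z + (2:ℂ) ^ k * x) := by
      rw [zpow_add_one₀ two_ne_zero]; ring
    show W (k + 1) (2 * z + (2:ℂ) ^ (k + 1) * x) = _
    rw [this]
    exact h.step _ _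

lemma neg (h : Fam κ R C W) : Fam κ R C (fun k z => W k (-z)) where
  diff k := (h.diff k).comp differentiable_neg
  grow k z := by simpa using h.grow k (-z)
  step k z := by
    show W (k + 1) (-(2 * z)) = _
    rw [show -(2 * z) = 2 * (-z) by ring]
    exact h.step _ _

lemma iter (h : Fam κ R C W) (k : ℤ) (n : ℕ) (z : ℂ) :
    W (k + n) (2 ^ n * z) = Qn κ n (W k z) := by
  induction n with
  | zero => simp [Qn]
  | succ n ih =>
    rw [Qn, ← ih, ← h.step]
    congr 1
    · push_cast; ring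
    · rw [pow_succ]; ring

lemma R_nonneg (h : Fam κ R C W) : 0 ≤ R := by
  have := (norm_nonneg _).trans (h.grow 0 0)
  simpa using this

lemma G_iter (hκ : ‖κ‖ ≤ 1) (h : Fam κ R C W) (k : ℤ) (n : ℕ) (z : ℂ) :
    G κ (W (k + n) (2 ^ n * z)) = 2 ^ n * G κ (W k z) := by
  rw [h.iter, G_Qn hκ]

lemma G_le (hκ : ‖κ‖ ≤ 1) (h : Fam κ R C W) (hC : 0 ≤ C) (k : ℤ) (z : ℂ) :
    G κ (W k z) ≤ C * |z.im| := by
  have h1 : ∀ n : ℕ, Gs κ n (W k z) ≤ posLog R / 2 ^ n + C * |z.im| := by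
    intro n
    unfold Gs
    rw [← h.iter]
    have h2 := h.grow (k + n) (2 ^ n * z)
    have h3 : ((2:ℂ) ^ n * z).im = 2 ^ n * z.im := by
      have : ((2:ℂ) ^ n) = (((2:ℝ) ^ n : ℝ) : ℂ) := by push_cast; ring
      rw [this, Complex.im_ofReal_mul]
    rw [h3, abs_mul, abs_of_pos (a := (2:ℝ) ^ n) (by positivity)] at h2
    have h4 : posLog ‖W (k + n) (2 ^ n * z)‖ ≤ posLog R + C * (2 ^ n * |z.im|) := by
      refine (posLog_le_posLog (norm_nonneg _) h2).trans ?_
      refine (posLog_mul).trans ?_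
      have : posLog (Real.exp (C * (2 ^ n * |z.im|))) = C * (2 ^ n * |z.im|) := by
        rw [posLog_eq_log, Real.log_exp]
        rw [abs_of_pos (Real.exp_pos _)]
        exact Real.one_le_exp (by positivity)
      rw [this]
    rw [div_add' _ _ _ (by positivity)]
    apply div_le_div_of_nonneg_right _ (by positivity)
    calc _ ≤ _ := h4
      _ = _ := by ring
  have h2 : Tendsto (fun n : ℕ => posLog R / 2 ^ n + C * |z.im|) atTop (𝓝 (0 + C * |z.im|)) := by
    apply Tendsto.add_const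
    have := (tendsto_pow_atTop_nhds_zero_of_lt_one (r := (1/2:ℝ)) (by norm_num)
      (by norm_num)).const_mul (posLog R)
    rw [mul_zero] at this
    refine this.congr fun n => ?_
    rw [div_pow, one_pow]; ring
  rw [zero_add] at h2
  exact le_of_tendsto_of_tendsto' (G_tendsto hκ _) h2 h1

/-- ultralimits of families -/
lemma ultra {ι : Type*} (U : Ultrafilter ι) {Wi : ι → ℤ → ℂ → ℂ} (hC : 0 ≤ C)
    (h : ∀ i, Fam κ R C (Wi i)) :
    ∃ W, Fam κ R C W ∧ ∀ k z, Tendsto (fun i => Wi i k z) U (𝓝 (W k z)) := by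
  have hR : 0 ≤ R := by
    obtain ⟨i, hi⟩ := (Filter.Eventually.of_forall (f := (U : Filter ι)) h).exists
    exact hi.R_nonneg
  have h1 : ∀ k : ℤ, ∃ g : ℂ → ℂ, Differentiable ℂ g ∧
      (∀ z, Tendsto (fun i => Wi i k z) U (𝓝 (g z))) := by
    intro k
    obtain ⟨g, g1, g2, -, -⟩ := ultra_entire U (F := fun i => Wi i k)
      (B := fun r => R * Real.exp (C * r))
      (Filter.Eventually.of_forall fun i => (h i).diff k) (by
        intro r
        refine Filter.Eventually.of_forall fun i z hz => ((h i).grow k z).trans ?_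
        have := Complex.abs_im_le_norm z
        have : |z.im| ≤ r := this.trans hz
        gcongr)
    exact ⟨g, g1, g2⟩
  choose W hW1 hW2 using h1
  refine ⟨W, ⟨hW1, ?_, ?_⟩, hW2⟩
  · intro k z
    exact le_of_tendsto' (hW2 k z).norm fun i => (h i).grow k z
  · intro k z
    refine tendsto_nhds_unique (hW2 (k + 1) (2 * z)) ?_
    have : Tendsto (fun i => Q κ (Wi i k z)) U (𝓝 (Q κ (W k z))) := by
      unfold Q
      exact ((hW2 k z).pow 2).add_const κ
    refine this.congr fun i => ?_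
    exact ((h i).step k z).symm

lemma G_zpow (hκ : ‖κ‖ ≤ 1) (h : Fam κ R C W) (k j : ℤ) (z : ℂ) :
    G κ (W (k + j) ((2:ℂ) ^ j * z)) = (2:ℝ) ^ j * G κ (W k z) := by
  obtain ⟨n, rfl | rfl⟩ := j.eq_nat_or_neg
  · simpa using h.G_iter hκ k n z
  · have := h.G_iter hκ (k + -(n:ℤ)) n ((2:ℂ) ^ (-(n:ℤ)) * z)
    rw [show k + -(n:ℤ) + n = k by ring, ← mul_assoc] at this
    rw [show (2:ℂ) ^ n * (2:ℂ) ^ (-(n:ℤ)) = 1 by
      rw [← zpow_natCast, ← zpow_add₀ two_ne_zero]; simp, one_mul] at this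
    rw [this, ← mul_assoc, show (2:ℝ) ^ (-(n:ℤ)) * 2 ^ n = 1 by
      rw [zpow_neg, zpow_natCast]; field_simp, one_mul]

end Fam

/-- the possible ratios -/
def Val (κ : ℂ) (R C : ℝ) : Set ℝ :=
  {t | ∃ W, Fam κ R C W ∧ ∃ z : ℂ, 0 < z.im ∧ t = G κ (W 0 z) / z.im}

variable {κ : ℂ} {R C : ℝ} {W : ℤ → ℂ → ℂ}

lemma Val_bdd (hκ : ‖κ‖ ≤ 1) (hC : 0 ≤ C) : BddAbove (Val κ R C) := by
  refine ⟨C, ?_⟩
  rintro t ⟨W, h, z, hz, rfl⟩
  rw [div_le_iff₀ hz]
  have := h.G_le hκ hC 0 z
  rwa [abs_of_pos hz] at this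

lemma G_le_A (hκ : ‖κ‖ ≤ 1) (hC : 0 ≤ C) (h : Fam κ R C W) (k : ℤ) {z : ℂ} (hz : 0 < z.im) :
    G κ (W k z) ≤ sSup (Val κ R C) * z.im := by
  rw [← div_le_iff₀ hz]
  apply le_csSup (Val_bdd hκ hC)
  exact ⟨_, h.shift k, z, hz, by simp⟩

lemma norm_le_exp_of_posLog {x t : ℝ} (hx : 0 ≤ x) (h : posLog x ≤ t) : x ≤ Real.exp t := by
  rcases eq_or_lt_of_le hx with h0 | h0
  · rw [← h0]; positivity
  · rw [← Real.exp_log h0]
    apply Real.exp_le_exp.2
    refine le_trans ?_ h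
    rw [posLog_apply]; exact le_max_right _ _

lemma exp_le_of_posLog {x t : ℝ} (hx : 0 ≤ x) (ht : 0 < t) (h : t ≤ posLog x) :
    Real.exp t ≤ x := by
  have h1 : 1 < |x| := by
    by_contra hcon
    push Not at hcon
    rw [← posLog_eq_zero_iff] at hcon
    linarith
  rw [posLog_eq_log h1.le] at h
  rw [abs_of_nonneg hx] at h1
  rwa [← Real.le_log_iff_exp_le (by linarith)]

lemma norm_le_A (hκ : ‖κ‖ ≤ 1) (hC : 0 ≤ C) (h : Fam κ R C W) (k : ℤ) {z : ℂ} (hz : 0 < z.im) :
    ‖W k z‖ ≤ 2 * Real.exp (sSup (Val κ R C) * z.im) := by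
  have h1 := (abs_le.1 (G_sub_posLog hκ (W k z))).2
  have h2 := G_le_A hκ hC h k hz
  have h3 := norm_le_exp_of_posLog (norm_nonneg (W k z))
    (show posLog ‖W k z‖ ≤ sSup (Val κ R C) * z.im + Real.log 2 by linarith)
  rwa [Real.exp_add, Real.exp_log two_pos, mul_comm] at h3

lemma exists_near (hκ : ‖κ‖ ≤ 1) (hC : 0 ≤ C) (hne : ∃ W, Fam κ R C W) {δ : ℝ} (hδ : 0 < δ) :
    ∃ W, Fam κ R C W ∧ ∃ y : ℝ, 1 ≤ y ∧ y ≤ 2 ∧
      sSup (Val κ R C) * y - δ ≤ G κ (W 0 (y * Complex.I)) := by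
  have hV : (Val κ R C).Nonempty := by
    obtain ⟨W, h⟩ := hne
    exact ⟨_, W, h, Complex.I, by simp, rfl⟩
  obtain ⟨t, ⟨W, h, z, hz, rfl⟩, ht⟩ := exists_lt_of_lt_csSup hV
    (show sSup (Val κ R C) - δ / 2 < sSup (Val κ R C) by linarith)
  obtain ⟨j, hj1, hj2⟩ := exists_mem_Ico_zpow hz (one_lt_two)
  set q : ℝ := (2:ℝ) ^ j with hq
  have hq0 : 0 < q := by positivity
  have hqj : (2:ℝ) ^ (j + 1) = 2 * q := by rw [zpow_add_one₀ two_ne_zero, mul_comm]
  rw [hqj] at hj2
  refine ⟨_, (h.shift (-j)).trans (z.re / q), z.im / q, ?_, ?_, ?_⟩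
  · rw [le_div_iff₀ hq0]; linarith
  · rw [div_le_iff₀ hq0]; exact hj2.le
  · have e : ((z.im / q : ℝ) : ℂ) * Complex.I + (2:ℂ) ^ (0:ℤ) * ((z.re / q : ℝ) : ℂ)
        = (2:ℂ) ^ (-j) * z := by
      have hq' : (2:ℂ) ^ (-j) = ((q⁻¹ : ℝ) : ℂ) := by
        rw [hq, zpow_neg]; push_cast; ring
      rw [hq', zpow_zero, one_mul]
      apply Complex.ext
      · simp; ring
      · simp; ring
    have h5 := h.G_zpow hκ 0 (-j) z
    rw [show (2:ℝ) ^ (-j) = q⁻¹ by rw [hq, zpow_neg]] at h5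
    show _ ≤ G κ (W (0 + -j) _)
    rw [e, h5]
    rw [lt_div_iff₀ hz] at ht
    have h6 : z.im / q ≤ 2 := by rw [div_le_iff₀ hq0]; exact hj2.le
    have h7 : sSup (Val κ R C) * (z.im / q) - δ / 2 * (z.im / q) ≤ q⁻¹ * G κ (W 0 z) := by
      calc _ = q⁻¹ * ((sSup (Val κ R C) - δ / 2) * z.im) := by field_simp
        _ ≤ q⁻¹ * G κ (W 0 z) := by gcongr
    have h8 : δ / 2 * (z.im / q) ≤ δ / 2 * 2 := by gcongr
    linarith

/-- **The extremal family.** -/
theorem exists_ext (hκ : ‖κ‖ ≤ 1) (hC : 0 ≤ C) (hne : ∃ W, Fam κ R C W)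
    (hA : 0 < sSup (Val κ R C)) :
    ∃ W, Fam κ R C W ∧ ∀ z : ℂ, 0 < z.im → G κ (W 0 z) = sSup (Val κ R C) * z.im := by
  set A := sSup (Val κ R C) with hAdef
  have h1 : ∀ n : ℕ, ∃ W, Fam κ R C W ∧ ∃ y : ℝ, 1 ≤ y ∧ y ≤ 2 ∧
      A * y - 1 / 2 ^ n ≤ G κ (W 0 (y * Complex.I)) :=
    fun n => exists_near hκ hC hne (by positivity)
  choose Wn hWn y hy1 hy2 hy3 using h1
  set U : Ultrafilter ℕ := hyperfilter ℕ with hU
  have hUtop : (U : Filter ℕ) ≤ atTop := Nat.hyperfilter_le_atTop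
  obtain ⟨y0, ⟨hy01, hy02⟩, hyl⟩ := (isCompact_Icc (a := (1:ℝ)) (b := 2)).ultrafilter_le_nhds
    (U.map y) (by
      rw [le_principal_iff]
      show y ⁻¹' _ ∈ U
      exact Filter.univ_mem' fun n => ⟨hy1 n, hy2 n⟩)
  have hyt : Tendsto y U (𝓝 y0) := hyl
  obtain ⟨W, hW, hlim⟩ := Fam.ultra U hC hWn
  refine ⟨W, hW, ?_⟩
  -- the auxiliary functions
  set H : ℕ → ℂ → ℂ := fun n z => Wn n n (2 ^ n * z) * Complex.exp (Complex.I * A * (2 ^ n * z))
    with hH
  set Ω : Set ℂ := {z | 0 < z.im} with hΩ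
  have hΩo : IsOpen Ω := isOpen_lt continuous_const Complex.continuous_im
  have him : ∀ (n : ℕ) (z : ℂ), ((2:ℂ) ^ n * z).im = 2 ^ n * z.im := by
    intro n z
    have : ((2:ℂ) ^ n) = (((2:ℝ) ^ n : ℝ) : ℂ) := by push_cast; ring
    rw [this, Complex.im_ofReal_mul]
  have hexp : ∀ (n : ℕ) (z : ℂ), ‖Complex.exp (Complex.I * A * (2 ^ n * z))‖ =
      Real.exp (-(A * (2 ^ n * z.im))) := by
    intro n z
    rw [Complex.norm_exp]
    congr 1
    rw [← him n z]
    have e : Complex.I * (A:ℂ) * (2 ^ n * z) = (A:ℂ) * (Complex.I * (2 ^ n * z)) := by ring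
    rw [e, Complex.re_ofReal_mul, Complex.I_mul_re]; ring
  have hHd : ∀ n, Differentiable ℂ (H n) := by
    intro n
    apply Differentiable.mul
    · exact ((hWn n).diff n).comp (differentiable_id.const_mul _)
    · exact ((differentiable_id.const_mul _).const_mul _).cexp
  have hHb : ∀ n, ∀ z ∈ Ω, ‖H n z‖ ≤ 2 := by
    intro n z hz
    have hz' : 0 < ((2:ℂ) ^ n * z).im := by
      rw [him]; exact mul_pos (by positivity) hz
    have h2 := norm_le_A hκ hC (hWn n) n hz'
    rw [him, ← hAdef] at h2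
    show ‖Wn n n (2 ^ n * z) * Complex.exp (Complex.I * A * (2 ^ n * z))‖ ≤ 2
    rw [norm_mul, hexp]
    calc _ ≤ 2 * Real.exp (A * (2 ^ n * z.im)) * Real.exp (-(A * (2 ^ n * z.im))) := by gcongr
      _ = 2 := by rw [mul_assoc, ← Real.exp_add]; simp
  obtain ⟨g, hgd, hgu⟩ := ultra_open U hΩo (F := H)
    (Filter.Eventually.of_forall fun n => (hHd n).differentiableOn)
    (Filter.Eventually.of_forall hHb)
  -- nonzero at one point
  have hz0 : ((y0:ℂ) * Complex.I) ∈ Ω := by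
    show 0 < ((y0:ℂ) * Complex.I).im
    simp; linarith
  have hg0 : g (y0 * Complex.I) ≠ 0 := by
    have ht : Tendsto (fun n => (y n : ℂ) * Complex.I) U (𝓝[Ω] ((y0:ℂ) * Complex.I)) := by
      rw [tendsto_nhdsWithin_iff]
      refine ⟨?_, Filter.Eventually.of_forall fun n => ?_⟩
      · exact ((Complex.continuous_ofReal.tendsto y0).comp hyt).mul_const _
      · show 0 < ((y n:ℂ) * Complex.I).im
        simp; linarith [hy1 n]
    have ht2 := hgu.tendsto_comp (hgd.continuousOn _ hz0) hz0 ht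
    have hlow : ∀ᶠ n in (U : Filter ℕ), Real.exp (-1) / 2 ≤ ‖H n (y n * Complex.I)‖ := by
      have hbig : ∀ᶠ n : ℕ in (U : Filter ℕ), 1 + Real.log 2 < A * 2 ^ n := by
        apply hUtop
        have : Tendsto (fun n : ℕ => A * 2 ^ n) atTop atTop :=
          (tendsto_pow_atTop_atTop_of_one_lt one_lt_two).const_mul_atTop hA
        exact this.eventually_gt_atTop _
      filter_upwards [hbig] with n hn
      have h3 := (hWn n).G_iter hκ 0 n (y n * Complex.I)
      rw [zero_add] at h3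
      have h4 := hy3 n
      have h5 := (abs_le.1 (G_sub_posLog hκ (Wn n n (2 ^ n * (y n * Complex.I))))).1
      have h6 : A * (2 ^ n * y n) - 1 ≤ G κ (Wn n n (2 ^ n * (y n * Complex.I))) := by
        rw [h3]
        calc _ = 2 ^ n * (A * y n - 1 / 2 ^ n) := by field_simp
          _ ≤ _ := by gcongr
      have h7 : A * 2 ^ n ≤ A * (2 ^ n * y n) := by
        rw [← mul_assoc]
        exact le_mul_of_one_le_right (by positivity) (hy1 n)
      have h8 := exp_le_of_posLog (x := ‖Wn n n (2 ^ n * (y n * Complex.I))‖) (norm_nonneg _)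
        (t := A * (2 ^ n * y n) - 1 - Real.log 2) (by linarith) (by linarith)
      show _ ≤ ‖Wn n n (2 ^ n * (y n * Complex.I)) *
        Complex.exp (Complex.I * A * (2 ^ n * (y n * Complex.I)))‖
      rw [norm_mul, hexp]
      have h9 : (((y n : ℝ) : ℂ) * Complex.I).im = y n := by simp
      rw [h9]
      calc Real.exp (-1) / 2 = Real.exp (A * (2 ^ n * y n) - 1 - Real.log 2) *
            Real.exp (-(A * (2 ^ n * y n))) := by
              rw [← Real.exp_add, show A * (2 ^ n * y n) - 1 - Real.log 2 + -(A * (2 ^ n * y n))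
                = -1 - Real.log 2 by ring, Real.exp_sub, Real.exp_log two_pos]
        _ ≤ _ := by gcongr
    have h10 : Real.exp (-1) / 2 ≤ ‖g (y0 * Complex.I)‖ := ge_of_tendsto ht2.norm hlow
    intro h0
    rw [h0, norm_zero] at h10
    have : 0 < Real.exp (-1) := Real.exp_pos _
    linarith
  -- equality where g is not zero
  have heq : ∀ z ∈ Ω, g z ≠ 0 → G κ (W 0 z) = A * z.im := by
    intro z hz hgz
    have hGt : Tendsto (fun n => G κ (Wn n 0 z)) U (𝓝 (G κ (W 0 z))) :=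
      ((G_cont hκ).tendsto _).comp (hlim 0 z)
    apply le_antisymm
    · exact G_le_A hκ hC hW 0 hz
    · have hHt := hgu.tendsto_at hz
      set δ := ‖g z‖ / 2 with hδ
      have hδ0 : 0 < δ := by
        have := norm_pos_iff.2 hgz
        positivity
      have hev : ∀ᶠ n in (U : Filter ℕ), δ ≤ ‖H n z‖ := by
        have := hHt.norm.eventually (lt_mem_nhds (show δ < ‖g z‖ by
          have := norm_pos_iff.2 hgz
          linarith))
        filter_upwards [this] with n hn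
        exact hn.le
      have hlow : ∀ᶠ n in (U : Filter ℕ),
          A * z.im + (Real.log δ - Real.log 2) / 2 ^ n ≤ G κ (Wn n 0 z) := by
        filter_upwards [hev] with n hn
        have h3 := (hWn n).G_iter hκ 0 n z
        rw [zero_add] at h3
        have h5 := (abs_le.1 (G_sub_posLog hκ (Wn n n (2 ^ n * z)))).2
        have hn' : δ ≤ ‖Wn n n (2 ^ n * z)‖ * Real.exp (-(A * (2 ^ n * z.im))) := by
          rw [← hexp, ← norm_mul]; exact hn
        have h6 : δ * Real.exp (A * (2 ^ n * z.im)) ≤ ‖Wn n n (2 ^ n * z)‖ := by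
          rw [Real.exp_neg, ← div_eq_mul_inv, le_div_iff₀ (Real.exp_pos _)] at hn'
          exact hn'
        have h7 : Real.log δ + A * (2 ^ n * z.im) ≤ Real.log ‖Wn n n (2 ^ n * z)‖ := by
          have := Real.log_le_log (by positivity) h6
          rwa [Real.log_mul hδ0.ne' (Real.exp_pos _).ne', Real.log_exp] at this
        have h8 : Real.log ‖Wn n n (2 ^ n * z)‖ ≤ posLog ‖Wn n n (2 ^ n * z)‖ := by
          rw [posLog_apply]; exact le_max_right _ _
        have h9 : 2 ^ n * G κ (Wn n 0 z) ≥ Real.log δ + A * (2 ^ n * z.im) - Real.log 2 := by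
          rw [← h3]; linarith
        have hp : (0:ℝ) < 2 ^ n := by positivity
        calc _ = (Real.log δ + A * (2 ^ n * z.im) - Real.log 2) / 2 ^ n := by field_simp; ring
          _ ≤ 2 ^ n * G κ (Wn n 0 z) / 2 ^ n := by gcongr
          _ = _ := by field_simp
      have hconst : Tendsto (fun n : ℕ => A * z.im + (Real.log δ - Real.log 2) / 2 ^ n) U
          (𝓝 (A * z.im + 0)) := by
        apply Tendsto.const_add
        have h0 : Tendsto (fun n : ℕ => (Real.log δ - Real.log 2) / 2 ^ n) atTop (𝓝 0) := by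
          have := (tendsto_pow_atTop_nhds_zero_of_lt_one (r := (1/2:ℝ)) (by norm_num)
            (by norm_num)).const_mul (Real.log δ - Real.log 2)
          rw [mul_zero] at this
          refine this.congr fun n => ?_
          rw [div_pow, one_pow]; ring
        exact h0.mono_left hUtop
      rw [add_zero] at hconst
      exact le_of_tendsto_of_tendsto hconst hGt hlow
  intro z hz
  by_contra hcon
  have hc1 : Continuous fun w => G κ (W 0 w) := (G_cont hκ).comp (hW.diff 0).continuous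
  have hc2 : Continuous fun w : ℂ => A * w.im := continuous_const.mul Complex.continuous_im
  have hne1 : ∀ᶠ w in 𝓝 z, G κ (W 0 w) ≠ A * w.im :=
    (isOpen_ne_fun hc1 hc2).mem_nhds hcon
  have hzero : g =ᶠ[𝓝 z] 0 := by
    filter_upwards [hne1, hΩo.mem_nhds hz] with w hw1 hw2
    by_contra h
    exact hw1 (heq w hw2 h)
  have hpre : IsPreconnected Ω := by
    have : Convex ℝ Ω := convex_halfSpace_im_gt 0
    exact this.isPreconnected
  have := (hgd.analyticOnNhd hΩo).eqOn_zero_of_preconnected_of_eventuallyEq_zero hpre hz hzero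
  exact hg0 (this hz0)

end Pool.Agent.W_4481_h69
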