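import Pool.Agent.W_4481_h69.RigK

/-!
Rigidity, second half: asymptotics of the extremal family and the contradiction.
-/

open Filter Topology Real Set

namespace Pool.Agent.W_4481_h69

/-- Borel-Caratheodory for functions of almost maximal modulus at the centre -/
lemma bc_diff {f : ℂ → ℂ} (hf : Differentiable ℂ f) {z : ℂ} {M δ : ℝ} (hδ : 0 < δ)
    (hM : ∀ w, ‖w - z‖ < 1 → ‖f w‖ ≤ M) (hz : M - δ ≤ ‖f z‖) {t : ℂ} (ht : ‖t‖ ≤ 1 / 2) :
    ‖f (z + t) - f z‖ ≤ 2 * δ := by
  obtain ⟨u, hu, huf⟩ : ∃ u : ℂ, ‖u‖ = 1 ∧ u * f z = ‖f z‖ := by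
    by_cases h : f z = 0
    · exact ⟨1, by simp, by simp [h]⟩
    · have h' : ‖f z‖ ≠ 0 := norm_ne_zero_iff.2 h
      refine ⟨‖f z‖ / f z, ?_, ?_⟩
      · rw [norm_div, Complex.norm_real, norm_norm]; field_simp
      · field_simp
  set g : ℂ → ℂ := fun w => u * (f (z + w) - f z) with hg
  have hgd : Differentiable ℂ g :=
    ((hf.comp (differentiable_id.const_add z)).sub_const _).const_mul _
  have hmaps : Set.MapsTo g (Metric.ball 0 1) {z | z.re ≤ δ} := by
    intro w hw
    have hw' : ‖w‖ < 1 := by simpa using hw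
    show (u * (f (z + w) - f z)).re ≤ δ
    rw [mul_sub, huf, Complex.sub_re, Complex.ofReal_re]
    have h1 : (u * f (z + w)).re ≤ M := by
      refine (Complex.re_le_norm _).trans ?_
      rw [norm_mul, hu, one_mul]
      apply hM
      simpa using hw'
    linarith
  have h := Complex.borelCaratheodory_zero hδ hgd.differentiableOn hmaps one_pos
    (z := t) (by simp; linarith) (by simp [hg])
  have h2 : ‖g t‖ = ‖f (z + t) - f z‖ := by
    rw [hg]; simp only; rw [norm_mul, hu, one_mul]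
  rw [h2] at h
  refine h.trans ?_
  rw [div_le_iff₀ (by linarith)]
  nlinarith [norm_nonneg t]

/-- functions whose increments decay with the height have a limit -/
lemma lim_const {F : ℂ → ℂ} {K A Y : ℝ} (hA : 0 < A)
    (h : ∀ z t : ℂ, Y ≤ z.im → ‖t‖ ≤ 1 / 2 →
      ‖F (z + t) - F z‖ ≤ K * Real.exp (-2 * A * z.im)) :
    ∃ c, ∀ z : ℂ, Y ≤ z.im →
      ‖F z - c‖ ≤ K * Real.exp (-2 * A * z.im) / (1 - Real.exp (-A)) := by
  have hr : Real.exp (-A) < 1 := by
    rw [← Real.exp_zero]; exact Real.exp_lt_exp.2 (by linarith)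
  set a : ℂ → ℕ → ℂ := fun z n => F (z + n * (Complex.I / 2)) with ha
  have him : ∀ (z : ℂ) (n : ℕ), (z + n * (Complex.I / 2)).im = z.im + n / 2 := by
    intro z n
    have : ((n:ℂ) * (Complex.I / 2)) = ((n / 2 : ℝ) : ℂ) * Complex.I := by push_cast; ring
    rw [this]; simp
  have hI : ‖Complex.I / 2‖ ≤ 1 / 2 := by simp
  have hd : ∀ z : ℂ, Y ≤ z.im → ∀ n, dist (a z n) (a z (n + 1)) ≤
      K * Real.exp (-2 * A * z.im) * Real.exp (-A) ^ n := by
    intro z hz n
    rw [dist_comm, dist_eq_norm]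
    have e : z + ((n + 1 : ℕ) : ℂ) * (Complex.I / 2) =
        z + n * (Complex.I / 2) + Complex.I / 2 := by push_cast; ring
    simp only [ha]
    rw [e]
    have := h (z + n * (Complex.I / 2)) (Complex.I / 2)
      (by rw [him]; have : (0:ℝ) ≤ n := Nat.cast_nonneg n; linarith) hI
    refine this.trans (le_of_eq ?_)
    rw [him, ← Real.exp_nat_mul, mul_assoc K, ← Real.exp_add]
    congr 2
    ring
  have hex : ∀ z : ℂ, ∃ c, Tendsto (a z) atTop (𝓝 c) := by
    intro z
    obtain ⟨m, hm⟩ := exists_nat_gt (2 * (Y - z.im))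
    have hm' : Y ≤ (z + m * (Complex.I / 2)).im := by rw [him]; linarith
    have hc := (cauchySeq_of_le_geometric _ _ hr (hd _ hm')).tendsto_limUnder
    refine ⟨_, (tendsto_add_atTop_iff_nat m).1 (hc.congr fun n => ?_)⟩
    simp only [ha]
    congr 1
    push_cast; ring
  choose c hc using hex
  have hloc : IsLocallyConstant c := by
    rw [IsLocallyConstant.iff_eventually_eq]
    intro x
    filter_upwards [Metric.ball_mem_nhds x (show (0:ℝ) < 1 / 2 by norm_num)] with y hy
    have hy' : ‖y - x‖ ≤ 1 / 2 := by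
      have : ‖y - x‖ < 1 / 2 := by simpa [dist_eq_norm] using hy
      exact this.le
    have h1 : Tendsto (fun n => a y n - a x n) atTop (𝓝 (c y - c x)) := (hc y).sub (hc x)
    have h2 : Tendsto (fun n => a y n - a x n) atTop (𝓝 0) := by
      have hb : Tendsto (fun n : ℕ => K * Real.exp (-2 * A * x.im) * Real.exp (-A) ^ n) atTop
          (𝓝 0) := by
        have := (tendsto_pow_atTop_nhds_zero_of_lt_one (Real.exp_pos (-A)).le hr).const_mul
          (K * Real.exp (-2 * A * x.im))
        rwa [mul_zero] at this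
      obtain ⟨m, hm⟩ := exists_nat_gt (2 * (Y - x.im))
      refine squeeze_zero_norm' ?_ hb
      filter_upwards [eventually_ge_atTop m] with n hn
      have hnm : (m:ℝ) ≤ n := by exact_mod_cast hn
      have := h (x + n * (Complex.I / 2)) (y - x) (by rw [him]; linarith) hy'
      simp only [ha]
      rw [show x + n * (Complex.I / 2) + (y - x) = y + n * (Complex.I / 2) by ring] at this
      refine this.trans (le_of_eq ?_)
      rw [him, ← Real.exp_nat_mul, mul_assoc K, ← Real.exp_add]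
      congr 2
      ring
    exact sub_eq_zero.1 (tendsto_nhds_unique h1 h2)
  refine ⟨c 0, fun z hz => ?_⟩
  have h0 : c 0 = c z := hloc.apply_eq_of_preconnectedSpace 0 z
  rw [h0]
  have := dist_le_of_le_geometric_of_tendsto₀ _ _ hr (hd z hz) (hc z)
  rw [dist_eq_norm] at this
  simpa [ha] using this

/-- extremal families -/
structure Ext (κ : ℂ) (R C A : ℝ) (W : ℤ → ℂ → ℂ) : Prop extends Fam κ R C W where
  ext : ∀ k z, 0 < z.im → G κ (W k z) = A * z.im

variable {κ : ℂ} {R C A : ℝ} {W : ℤ → ℂ → ℂ}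

lemma norm_cexp_IA (A : ℝ) (z : ℂ) : ‖Complex.exp (Complex.I * A * z)‖ = Real.exp (-(A * z.im)) := by
  rw [Complex.norm_exp]
  congr 1
  have e : Complex.I * (A:ℂ) * z = (A:ℂ) * (Complex.I * z) := by ring
  rw [e, Complex.re_ofReal_mul, Complex.I_mul_re]; ring

lemma Ext.trans (h : Ext κ R C A W) (x : ℝ) :
    Ext κ R C A (fun k z => W k (z + (2:ℂ) ^ k * x)) where
  toFam := h.toFam.trans x
  ext k z hz := by
    have him : (z + (2:ℂ) ^ k * x).im = z.im := by
      have : ((2:ℂ) ^ k * x).im = 0 := by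
        have h2 : ((2:ℂ) ^ k * x) = (((2:ℝ) ^ k * x : ℝ) : ℂ) := by push_cast; ring
        rw [h2]; exact Complex.ofReal_im _
      rw [Complex.add_im, this, add_zero]
    rw [h.ext k _ (by rw [him]; exact hz), him]

/-- modulus of the normalised functions -/
lemma Ext.mod (hκ : ‖κ‖ ≤ 1) (h : Ext κ R C A W) (k : ℤ) {z : ℂ} (hz : 0 < z.im)
    (hz4 : 4 ≤ Real.exp (A * z.im)) :
    1 - 8 * Real.exp (-2 * A * z.im) ≤ ‖W k z * Complex.exp (Complex.I * A * z)‖ ∧
    ‖W k z * Complex.exp (Complex.I * A * z)‖ ≤ 1 + 16 * Real.exp (-2 * A * z.im) := by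
  set E := Real.exp (A * z.im) with hE
  have hE0 : 0 < E := Real.exp_pos _
  have hE2 : Real.exp (-2 * A * z.im) = 1 / E ^ 2 := by
    rw [hE, ← Real.exp_nat_mul, one_div, ← Real.exp_neg]
    congr 1; push_cast; ring
  have h1 := (abs_le.1 (G_sub_posLog hκ (W k z))).1
  rw [h.ext k z hz] at h1
  have hlog4 : Real.log 4 ≤ A * z.im := by
    rw [Real.log_le_iff_le_exp (by norm_num)]; exact hz4
  have hl42 : Real.log 4 = 2 * Real.log 2 := by
    rw [show (4:ℝ) = 2 ^ 2 by norm_num, Real.log_pow]; norm_num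
  have hl2 : 0 < Real.log 2 := Real.log_pos (by norm_num)
  have h2 : E / 2 ≤ ‖W k z‖ := by
    have := exp_le_of_posLog (x := ‖W k z‖) (norm_nonneg _) (t := A * z.im - Real.log 2)
      (by linarith) (by linarith)
    rwa [Real.exp_sub, Real.exp_log two_pos] at this
  have h3 : 2 ≤ ‖W k z‖ := by linarith
  have h4 := G_sub_log hκ h3
  rw [h.ext k z hz] at h4
  have h5 : 2 / ‖W k z‖ ^ 2 ≤ 8 / E ^ 2 := by
    rw [div_le_div_iff₀ (by positivity) (by positivity)]
    nlinarith
  have h6 : 8 / E ^ 2 ≤ 1 / 2 := by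
    rw [div_le_div_iff₀ (by positivity) (by positivity)]
    nlinarith
  obtain ⟨h7, h8⟩ := abs_le.1 (h4.trans h5)
  have hn : ‖W k z * Complex.exp (Complex.I * A * z)‖ =
      Real.exp (Real.log ‖W k z‖ - A * z.im) := by
    rw [norm_mul, norm_cexp_IA, Real.exp_sub, Real.exp_log (by linarith), Real.exp_neg]
    rfl
  set q := Real.log ‖W k z‖ - A * z.im with hq
  rw [hn, hE2]
  constructor
  · have := Real.add_one_le_exp q
    have : 8 * (1 / E ^ 2) = 8 / E ^ 2 := by ring
    linarith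
  · have h9 : Real.exp q ≤ Real.exp (8 / E ^ 2) := Real.exp_le_exp.2 h8
    have h10 : Real.exp (8 / E ^ 2) ≤ 1 + 2 * (8 / E ^ 2) := by
      have hx : 0 ≤ 8 / E ^ 2 := by positivity
      have := Real.exp_bound' hx (by linarith) (n := 2) (by norm_num)
      norm_num [Finset.sum_range_succ] at this
      nlinarith
    have : 16 * (1 / E ^ 2) = 2 * (8 / E ^ 2) := by ring
    linarith

/-- asymptotics -/
lemma Ext.asym (hκ : ‖κ‖ ≤ 1) (hA : 0 < A) (h : Ext κ R C A W) :
    ∃ c : ℤ → ℂ, ∃ C1 Y : ℝ, 0 ≤ C1 ∧ 0 < Y ∧ ∀ k z, Y ≤ z.im →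
      ‖W k z * Complex.exp (Complex.I * A * z) - c k‖ ≤ C1 * Real.exp (-2 * A * z.im) := by
  have hr : Real.exp (-A) < 1 := by
    rw [← Real.exp_zero]; exact Real.exp_lt_exp.2 (by linarith)
  set Y : ℝ := Real.log 4 / A + 1 with hY
  have hlog4 : 0 < Real.log 4 := Real.log_pos (by norm_num)
  have hYpos : 0 < Y := by positivity
  have h4 : ∀ z : ℂ, Real.log 4 / A ≤ z.im → 0 < z.im ∧ 4 ≤ Real.exp (A * z.im) := by
    intro z hz
    have hp : 0 < Real.log 4 / A := by positivity
    refine ⟨by linarith, ?_⟩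
    rw [← Real.log_le_iff_le_exp (by norm_num)]
    rwa [div_le_iff₀ hA, mul_comm] at hz
  set K : ℝ := 48 * Real.exp (2 * A) with hK
  have hinc : ∀ k z t, Y ≤ z.im → ‖t‖ ≤ 1 / 2 →
      ‖(fun w => W k w * Complex.exp (Complex.I * A * w)) (z + t) -
        (fun w => W k w * Complex.exp (Complex.I * A * w)) z‖ ≤ K * Real.exp (-2 * A * z.im) := by
    intro k z t hz ht
    have hdiff : Differentiable ℂ (fun w => W k w * Complex.exp (Complex.I * A * w)) :=
      (h.diff k).mul ((differentiable_id.const_mul _).cexp)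
    set δ : ℝ := 24 * Real.exp (2 * A) * Real.exp (-2 * A * z.im) with hδ
    have hδ0 : 0 < δ := by positivity
    have := bc_diff hdiff (z := z) (M := 1 + 16 * Real.exp (-2 * A * (z.im - 1))) hδ0 ?_ ?_ ht
    · refine this.trans (le_of_eq ?_)
      rw [hδ, hK]; ring
    · intro w hw
      have hw1 : z.im - 1 ≤ w.im := by
        have := Complex.abs_im_le_norm (w - z)
        rw [Complex.sub_im] at this
        have := (abs_le.1 (this.trans hw.le)).1
        linarith
      obtain ⟨p1, p2⟩ := h4 w (by linarith)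
      refine (h.mod hκ k p1 p2).2.trans ?_
      have : Real.exp (-2 * A * w.im) ≤ Real.exp (-2 * A * (z.im - 1)) := by
        apply Real.exp_le_exp.2
        nlinarith
      linarith
    · obtain ⟨p1, p2⟩ := h4 z (by linarith)
      refine le_trans ?_ (h.mod hκ k p1 p2).1
      have e : Real.exp (-2 * A * (z.im - 1)) = Real.exp (2 * A) * Real.exp (-2 * A * z.im) := by
        rw [← Real.exp_add]; congr 1; ring
      rw [e, hδ]
      have h1 : 1 ≤ Real.exp (2 * A) := Real.one_le_exp (by linarith)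
      have h2 : 0 < Real.exp (-2 * A * z.im) := Real.exp_pos _
      nlinarith [mul_le_mul_of_nonneg_right h1 h2.le]
  have hex := fun k => lim_const (F := fun w => W k w * Complex.exp (Complex.I * A * w)) hA
    (hinc k)
  choose c hc using hex
  refine ⟨c, K / (1 - Real.exp (-A)), Y, ?_, hYpos, fun k z hz => ?_⟩
  · apply div_nonneg (by positivity); linarith
  · refine (hc k z hz).trans (le_of_eq ?_)
    ring

end Pool.Agent.W_4481_h69
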