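import Pool.Agent.W_4481_h69.RigK2

/-!
Rigidity, last part.
-/

open Filter Topology Real Set

namespace Pool.Agent.W_4481_h69

variable {κ : ℂ} {R C A : ℝ} {W : ℤ → ℂ → ℂ}

lemma tendsto_of_asym {F : ℂ → ℂ} {c : ℂ} {C1 Y : ℝ} (hA : 0 < A)
    (h : ∀ z : ℂ, Y ≤ z.im → ‖F z - c‖ ≤ C1 * Real.exp (-2 * A * z.im)) {r : ℝ} (hr : 0 < r)
    (x : ℝ) :
    Tendsto (fun n : ℕ => F (((r * n : ℝ) : ℂ) * Complex.I + x)) atTop (𝓝 c) := by
  have him : ∀ n : ℕ, (((r * n : ℝ) : ℂ) * Complex.I + x).im = r * n := by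
    intro n; simp
  rw [tendsto_iff_norm_sub_tendsto_zero]
  have hlim : Tendsto (fun n : ℕ => r * (n:ℝ)) atTop atTop :=
    tendsto_natCast_atTop_atTop.const_mul_atTop hr
  have hb : Tendsto (fun n : ℕ => C1 * Real.exp (-2 * A * (r * n))) atTop (𝓝 (C1 * 0)) := by
    apply Tendsto.const_mul
    apply Real.tendsto_exp_atBot.comp
    exact hlim.const_mul_atTop_of_neg (by linarith)
  rw [mul_zero] at hb
  refine squeeze_zero' (Filter.Eventually.of_forall fun n => norm_nonneg _) ?_ hb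
  filter_upwards [hlim.eventually_ge_atTop Y] with n hn
  have := h (((r * n : ℝ) : ℂ) * Complex.I + x) (by rw [him]; exact hn)
  rwa [him] at this

lemma Ext.norm_c (hκ : ‖κ‖ ≤ 1) (hA : 0 < A) (h : Ext κ R C A W) {k : ℤ} {c : ℂ} {C1 Y : ℝ}
    (hc : ∀ z : ℂ, Y ≤ z.im → ‖(fun w => W k w * Complex.exp (Complex.I * A * w)) z - c‖ ≤
      C1 * Real.exp (-2 * A * z.im)) : ‖c‖ = 1 := by
  have h1 := (tendsto_of_asym hA hc one_pos 0).norm
  have him : ∀ n : ℕ, (((1 * n : ℝ) : ℂ) * Complex.I + ((0:ℝ):ℂ)).im = n := by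
    intro n; simp
  have hlim : Tendsto (fun n : ℕ => A * (n:ℝ)) atTop atTop :=
    tendsto_natCast_atTop_atTop.const_mul_atTop hA
  have hexp : Tendsto (fun n : ℕ => Real.exp (-2 * A * (n:ℝ))) atTop (𝓝 0) := by
    apply Real.tendsto_exp_atBot.comp
    exact tendsto_natCast_atTop_atTop.const_mul_atTop_of_neg (by linarith)
  have hev : ∀ᶠ n : ℕ in atTop, 0 < (n:ℝ) ∧ 4 ≤ Real.exp (A * n) := by
    filter_upwards [eventually_gt_atTop 0, hlim.eventually_ge_atTop (Real.log 4)] with n h1 h2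
    refine ⟨by exact_mod_cast h1, ?_⟩
    rwa [← Real.log_le_iff_le_exp (by norm_num)]
  apply le_antisymm
  · have hu : Tendsto (fun n : ℕ => 1 + 16 * Real.exp (-2 * A * (n:ℝ))) atTop (𝓝 (1 + 16 * 0)) :=
      (hexp.const_mul _).const_add _
    rw [mul_zero, add_zero] at hu
    refine le_of_tendsto_of_tendsto h1 hu ?_
    filter_upwards [hev] with n hn
    have := (h.mod hκ k (z := ((1 * n : ℝ) : ℂ) * Complex.I + ((0:ℝ):ℂ))
      (by rw [him]; exact hn.1) (by rw [him]; exact hn.2)).2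
    rwa [him] at this
  · have hu : Tendsto (fun n : ℕ => 1 - 8 * Real.exp (-2 * A * (n:ℝ))) atTop (𝓝 (1 - 8 * 0)) :=
      (hexp.const_mul _).const_sub _
    rw [mul_zero, sub_zero] at hu
    refine le_of_tendsto_of_tendsto hu h1 ?_
    filter_upwards [hev] with n hn
    have := (h.mod hκ k (z := ((1 * n : ℝ) : ℂ) * Complex.I + ((0:ℝ):ℂ))
      (by rw [him]; exact hn.1) (by rw [him]; exact hn.2)).1
    rwa [him] at this

/-- after a real translation the constants are `1` -/
lemma Ext.norm_one (hκ : ‖κ‖ ≤ 1) (hA : 0 < A) (h : Ext κ R C A W) :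
    ∃ V, Ext κ R C A V ∧ ∃ C1 Y : ℝ, 0 ≤ C1 ∧ 0 < Y ∧ ∀ (k : ℕ) (z : ℂ), Y ≤ z.im →
      ‖V k z * Complex.exp (Complex.I * A * z) - 1‖ ≤ C1 * Real.exp (-2 * A * z.im) := by
  obtain ⟨c, C0, Y0, -, -, hc⟩ := h.asym hκ hA
  have hn0 : ‖c 0‖ = 1 := h.norm_c hκ hA (k := 0) (hc 0)
  set s : ℝ := (c 0).arg / A with hs
  have hcs : c 0 * Complex.exp (-(Complex.I * A * s)) = 1 := by
    have h1 : c 0 = Complex.exp ((c 0).arg * Complex.I) := by
      have := Complex.norm_mul_exp_arg_mul_I (c 0)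
      rw [hn0] at this
      simpa using this.symm
    have h2 : Complex.I * A * s = (c 0).arg * Complex.I := by
      rw [hs]; push_cast
      have : (A:ℂ) ≠ 0 := by exact_mod_cast hA.ne'
      field_simp
    rw [h2]
    nth_rw 1 [h1]
    rw [← Complex.exp_add]; simp
  set V : ℤ → ℂ → ℂ := fun k z => W k (z + (2:ℂ) ^ k * s) with hV
  have hVE : Ext κ R C A V := h.trans s
  obtain ⟨d, C1, Y, hC1, hY, hd⟩ := hVE.asym hκ hA
  have hd0 : d 0 = 1 := by
    have h1 := tendsto_of_asym (F := fun w => V 0 w * Complex.exp (Complex.I * A * w)) hA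
      (hd 0) one_pos 0
    have h2 := (tendsto_of_asym (F := fun w => W 0 w * Complex.exp (Complex.I * A * w)) hA
      (hc 0) one_pos s).mul_const (Complex.exp (-(Complex.I * A * s)))
    rw [hcs] at h2
    refine tendsto_nhds_unique h1 (h2.congr fun n => ?_)
    simp only [hV, zpow_zero, one_mul]
    rw [mul_assoc, ← Complex.exp_add]
    congr 2
    · push_cast; ring
    · push_cast; ring
  have hstep : ∀ k, d (k + 1) = d k ^ 2 := by
    intro k
    have h1 := tendsto_of_asym (F := fun w => V (k + 1) w * Complex.exp (Complex.I * A * w)) hA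
      (hd (k + 1)) two_pos 0
    have h2 := (tendsto_of_asym (F := fun w => V k w * Complex.exp (Complex.I * A * w)) hA
      (hd k) one_pos 0).pow 2
    have h3 : Tendsto (fun n : ℕ => κ * (Real.exp (-2 * A * (n:ℝ)) : ℂ)) atTop (𝓝 (κ * (0:ℝ))) := by
      apply Tendsto.const_mul
      apply (Complex.continuous_ofReal.tendsto 0).comp
      apply Real.tendsto_exp_atBot.comp
      exact tendsto_natCast_atTop_atTop.const_mul_atTop_of_neg (by linarith)
    have h4 := h2.add h3
    have hk0 : κ * ((0:ℝ):ℂ) = 0 := by simp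
    rw [hk0, add_zero] at h4
    refine tendsto_nhds_unique h1 (h4.congr fun n => ?_)
    have e1 : (((2 * n : ℝ) : ℂ) * Complex.I + ((0:ℝ):ℂ)) =
        2 * (((1 * n : ℝ) : ℂ) * Complex.I + ((0:ℝ):ℂ)) := by push_cast; ring
    rw [e1, hVE.step]
    set z : ℂ := ((1 * n : ℝ) : ℂ) * Complex.I + ((0:ℝ):ℂ) with hz
    have e2 : Complex.exp (Complex.I * A * (2 * z)) = Complex.exp (Complex.I * A * z) ^ 2 := by
      rw [← Complex.exp_nat_mul]; congr 1; push_cast; ring
    have e3 : (Real.exp (-2 * A * (n:ℝ)) : ℂ) = Complex.exp (Complex.I * A * (2 * z)) := by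
      rw [Complex.ofReal_exp]; congr 1; rw [hz]; push_cast
      linear_combination (-2 * (A:ℂ) * n) * Complex.I_sq
    rw [e3, e2]
    unfold Q
    ring
  have hd1 : ∀ k : ℕ, d k = 1 := by
    intro k
    induction k with
    | zero => exact hd0
    | succ k ih => push_cast; rw [hstep, ih, one_pow]
  refine ⟨V, hVE, C1, Y, hC1, hY, fun k z hz => ?_⟩
  have := hd k z hz
  rwa [hd1 k] at this

/-- the extremal family comes from one function -/
lemma Ext.self (hκ : ‖κ‖ ≤ 1) (hA : 0 < A) (h : Ext κ R C A W) :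
    ∃ V : ℂ → ℂ, Differentiable ℂ V ∧ (∀ z, V (2 * z) = V z ^ 2 + κ) ∧
      ¬ ∃ c, ∀ z, V z = c := by
  obtain ⟨V, hV, C1, Y, hC1, hY, hc⟩ := h.norm_one hκ hA
  have hnear : ∀ (k : ℕ) (z : ℂ), Y ≤ z.im →
      ‖V k z - Complex.exp (-(Complex.I * A * z))‖ ≤ C1 := by
    intro k z hz
    have h1 := hc k z hz
    have e : V k z - Complex.exp (-(Complex.I * A * z)) =
        (V k z * Complex.exp (Complex.I * A * z) - 1) * Complex.exp (-(Complex.I * A * z)) := by
      rw [sub_mul, mul_assoc (V k z), ← Complex.exp_add]; simp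
    have hn : ‖Complex.exp (-(Complex.I * A * z))‖ = Real.exp (A * z.im) := by
      have := norm_cexp_IA A (-z)
      rw [show -(Complex.I * A * z) = Complex.I * A * (-z) by ring, this]
      congr 1; rw [Complex.neg_im]; ring
    rw [e, norm_mul, hn]
    calc _ ≤ C1 * Real.exp (-2 * A * z.im) * Real.exp (A * z.im) := by gcongr
      _ = C1 * Real.exp (-(A * z.im)) := by
        rw [mul_assoc, ← Real.exp_add]; congr 2; ring
      _ ≤ C1 * 1 := by
        have : Real.exp (-(A * z.im)) ≤ 1 := Real.exp_le_one_iff.2 (by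
          have : 0 ≤ A * z.im := mul_nonneg hA.le (by linarith)
          linarith)
        gcongr
      _ = C1 := mul_one _
  have hnexp : ∀ z : ℂ, ‖Complex.exp (-(Complex.I * A * z))‖ = Real.exp (A * z.im) := by
    intro z
    have := norm_cexp_IA A (-z)
    rw [show -(Complex.I * A * z) = Complex.I * A * (-z) by ring, this]
    congr 1; rw [Complex.neg_im]; ring
  set Y1 : ℝ := max Y (Real.log (C1 + 2) / A) with hY1
  have hY1Y : Y ≤ Y1 := le_max_left _ _
  have hY1pos : 0 < Y1 := lt_of_lt_of_le hY hY1Y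
  have hE : ∀ z : ℂ, Y1 ≤ z.im → C1 + 2 ≤ Real.exp (A * z.im) := by
    intro z hz
    rw [← Real.log_le_iff_le_exp (by linarith)]
    have := (le_max_right Y (Real.log (C1 + 2) / A)).trans hz
    rwa [div_le_iff₀ hA, mul_comm] at this
  set D : ℕ → ℂ → ℂ := fun k z => V (k + 1) z - V k z with hD
  have hDb : ∀ (k : ℕ) (z : ℂ), Y1 ≤ z.im → ‖D k z‖ ≤ 2 * C1 := by
    intro k z hz
    have h1 := hnear (k + 1) z (hY1Y.trans hz)
    have h2 := hnear k z (hY1Y.trans hz)
    push_cast at h1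
    have e : D k z = (V (k + 1) z - Complex.exp (-(Complex.I * A * z))) -
        (V k z - Complex.exp (-(Complex.I * A * z))) := by simp only [hD]; ring
    rw [e]
    exact (norm_sub_le _ _).trans (by linarith)
  have hDs : ∀ (k : ℕ) (z : ℂ), Y1 ≤ z.im → 4 * ‖D k z‖ ≤ ‖D (k + 1) (2 * z)‖ := by
    intro k z hz
    have h1 := hnear (k + 1) z (hY1Y.trans hz)
    have h2 := hnear k z (hY1Y.trans hz)
    push_cast at h1
    have e : D (k + 1) (2 * z) = (V (k + 1) z + V k z) * D k z := by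
      simp only [hD]
      push_cast
      rw [hV.step, hV.step]
      unfold Q; ring
    have h4 : 4 ≤ ‖V (k + 1) z + V k z‖ := by
      have e2 : V (k + 1) z + V k z = 2 * Complex.exp (-(Complex.I * A * z)) +
          ((V (k + 1) z - Complex.exp (-(Complex.I * A * z))) +
          (V k z - Complex.exp (-(Complex.I * A * z)))) := by ring
      have h5 := norm_sub_le_norm_add (2 * Complex.exp (-(Complex.I * A * z)))
        ((V (k + 1) z - Complex.exp (-(Complex.I * A * z))) +
          (V k z - Complex.exp (-(Complex.I * A * z))))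
      rw [← e2, norm_mul, hnexp] at h5
      have h6 := norm_add_le (V (k + 1) z - Complex.exp (-(Complex.I * A * z)))
          (V k z - Complex.exp (-(Complex.I * A * z)))
      have h7 := hE z hz
      have h8 : ‖(2:ℂ)‖ = 2 := by simp
      rw [h8] at h5
      linarith
    rw [e, norm_mul]
    exact mul_le_mul_of_nonneg_right h4 (norm_nonneg _)
  have hDn : ∀ (n k : ℕ) (z : ℂ), Y1 ≤ z.im → 4 ^ n * ‖D k z‖ ≤ 2 * C1 := by
    intro n
    induction n with
    | zero => intro k z hz; simpa using hDb k z hz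
    | succ n ih =>
      intro k z hz
      have h2z : Y1 ≤ (2 * z).im := by
        rw [Complex.mul_im]; simp; linarith
      have h1 := ih (k + 1) (2 * z) h2z
      have h2 := hDs k z hz
      calc 4 ^ (n + 1) * ‖D k z‖ = 4 ^ n * (4 * ‖D k z‖) := by ring
        _ ≤ 4 ^ n * ‖D (k + 1) (2 * z)‖ := by gcongr
        _ ≤ _ := h1
  have hD0 : ∀ z : ℂ, Y1 ≤ z.im → V 1 z = V 0 z := by
    intro z hz
    have h1 : ‖D 0 z‖ ≤ 0 := by
      have hl : Tendsto (fun n : ℕ => 2 * C1 * (1/4:ℝ) ^ n) atTop (𝓝 (2 * C1 * 0)) :=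
        (tendsto_pow_atTop_nhds_zero_of_lt_one (by norm_num) (by norm_num)).const_mul _
      rw [mul_zero] at hl
      refine ge_of_tendsto' hl fun n => ?_
      have := hDn n 0 z hz
      rw [one_div, inv_pow, ← div_eq_mul_inv, le_div_iff₀ (by positivity), mul_comm]
      exact this
    have h2 : D 0 z = 0 := norm_le_zero_iff.1 h1
    simp only [hD] at h2
    have h3 : V 1 z - V 0 z = 0 := by simpa using h2
    exact sub_eq_zero.1 h3
  have hVV : V 1 = V 0 := by
    have a1 : AnalyticOnNhd ℂ (V 1) univ :=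
      (hV.diff 1).differentiableOn.analyticOnNhd isOpen_univ
    have a0 : AnalyticOnNhd ℂ (V 0) univ :=
      (hV.diff 0).differentiableOn.analyticOnNhd isOpen_univ
    apply a1.eq_of_eventuallyEq a0 (z₀ := ((Y1 + 1 : ℝ) : ℂ) * Complex.I)
    have ho : IsOpen {z : ℂ | Y1 < z.im} := isOpen_lt continuous_const Complex.continuous_im
    filter_upwards [ho.mem_nhds (show (((Y1 + 1 : ℝ) : ℂ) * Complex.I) ∈ {z : ℂ | Y1 < z.im} by
      show Y1 < (((Y1 + 1 : ℝ) : ℂ) * Complex.I).im
      simp)] with z hz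
    exact hD0 z (le_of_lt hz)
  refine ⟨V 0, hV.diff 0, fun z => ?_, ?_⟩
  · have := hV.step 0 z
    rw [zero_add, hVV] at this
    exact this
  · rintro ⟨c, hcc⟩
    have hlim : Tendsto (fun n : ℕ => Real.exp (A * (n:ℝ))) atTop atTop :=
      Real.tendsto_exp_atTop.comp (tendsto_natCast_atTop_atTop.const_mul_atTop hA)
    obtain ⟨n, hn1, hn2⟩ := ((hlim.eventually_gt_atTop (‖c‖ + C1)).and
      (tendsto_natCast_atTop_atTop.eventually_ge_atTop Y)).exists
    have him : ((n:ℂ) * Complex.I).im = n := by simp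
    have h1 := hnear 0 ((n:ℂ) * Complex.I) (by rw [him]; exact hn2)
    rw [Nat.cast_zero, hcc, norm_sub_rev] at h1
    have h2 := norm_sub_norm_le (Complex.exp (-(Complex.I * A * ((n:ℂ) * Complex.I)))) c
    rw [hnexp, him] at h2
    linarith

/-- no nonconstant entire self-similar function at a fixed point of the given kind -/
lemma no_self {a : ℂ} (hκ0 : κ ≠ 0) (ha : a ^ 2 + κ = a) (ha2 : ‖2 * a‖ < 1)
    {V : ℂ → ℂ} (hV : Differentiable ℂ V) (hs : ∀ z, V (2 * z) = V z ^ 2 + κ) :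
    ∃ c, ∀ z, V z = c := by
  set p := V 0 with hp
  have hpf : p = p ^ 2 + κ := by
    have := hs 0
    rwa [mul_zero, ← hp] at this
  have hEan : AnalyticAt ℂ (fun z => V z - p) 0 :=
    (hV.sub_const p).analyticAt 0
  by_cases hz : ∀ᶠ z in 𝓝 (0:ℂ), V z - p = 0
  · refine ⟨p, fun z => ?_⟩
    have a1 : AnalyticOnNhd ℂ (fun z => V z - p) univ :=
      (hV.sub_const p).differentiableOn.analyticOnNhd isOpen_univ
    have := a1.eqOn_zero_of_preconnected_of_eventuallyEq_zero isPreconnected_univ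
      (mem_univ (0:ℂ)) hz (mem_univ z)
    exact sub_eq_zero.1 this
  · exfalso
    obtain ⟨m, g, hg, hg0, hgE⟩ := (hEan.exists_eventuallyEq_pow_smul_nonzero_iff).2 hz
    have hm : m ≠ 0 := by
      rintro rfl
      have := hgE.self_of_nhds
      simp only [sub_zero, pow_zero, one_smul] at this
      rw [← hp, sub_self] at this
      exact hg0 this.symm
    have h2t : Tendsto (fun z : ℂ => 2 * z) (𝓝 0) (𝓝 0) := by
      have : Tendsto (fun z : ℂ => 2 * z) (𝓝 0) (𝓝 (2 * 0)) := tendsto_id.const_mul 2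
      rwa [mul_zero] at this
    have hgE2 := h2t.eventually hgE
    have hev : ∀ᶠ z in 𝓝[≠] (0:ℂ), 2 ^ m * g (2 * z) = g z * (V z + p) := by
      rw [eventually_nhdsWithin_iff]
      filter_upwards [hgE, hgE2] with z h1 h2 hz0
      have hz0' : z ≠ 0 := hz0
      simp only [sub_zero, smul_eq_mul] at h1 h2
      rw [hs] at h2
      have h3 : (2 * z) ^ m * g (2 * z) = z ^ m * g z * (V z + p) := by
        rw [← h1, ← h2]
        linear_combination -hpf
      rw [mul_pow] at h3
      have hzm : z ^ m ≠ 0 := pow_ne_zero _ hz0'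
      apply mul_left_cancel₀ hzm
      linear_combination h3
    have l1 : Tendsto (fun z : ℂ => 2 ^ m * g (2 * z)) (𝓝[≠] 0) (𝓝 (2 ^ m * g 0)) := by
      apply Tendsto.const_mul
      exact (hg.continuousAt.tendsto.comp h2t).mono_left nhdsWithin_le_nhds
    have l2 : Tendsto (fun z : ℂ => g z * (V z + p)) (𝓝[≠] 0) (𝓝 (g 0 * (p + p))) := by
      have h1 : Tendsto (fun z : ℂ => g z * (V z + p)) (𝓝 0) (𝓝 (g 0 * (V 0 + p))) :=
        hg.continuousAt.tendsto.mul ((hV.continuous.tendsto 0).add_const p)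
      exact h1.mono_left nhdsWithin_le_nhds
    have heq : 2 ^ m * g 0 = g 0 * (p + p) :=
      tendsto_nhds_unique l1 (l2.congr' (hev.mono fun z h => h.symm))
    have h2p : 2 * p = 2 ^ m := by
      apply mul_left_cancel₀ hg0
      linear_combination -heq
    have hfac : (p - a) * (p - (1 - a)) = 0 := by
      linear_combination -hpf - ha
    have hnorm : ‖2 * p‖ = 2 ^ m := by rw [h2p]; simp
    have hm1 : (2:ℝ) ≤ 2 ^ m := by
      calc (2:ℝ) = 2 ^ 1 := by norm_num
        _ ≤ 2 ^ m := pow_le_pow_right₀ (by norm_num) (Nat.one_le_iff_ne_zero.2 hm)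
    rcases mul_eq_zero.1 hfac with h | h
    · rw [sub_eq_zero.1 h] at hnorm
      linarith
    · have hpa : p = 1 - a := sub_eq_zero.1 h
      rcases Nat.lt_or_ge m 2 with hm2 | hm2
      · have : m = 1 := by omega
        rw [this, pow_one, hpa] at h2p
        have ha0 : a = 0 := by linear_combination (-1/2) * h2p
        rw [ha0] at ha
        apply hκ0
        linear_combination ha
      · have h4 : (4:ℝ) ≤ 2 ^ m := by
          calc (4:ℝ) = 2 ^ 2 := by norm_num
            _ ≤ 2 ^ m := pow_le_pow_right₀ (by norm_num) hm2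
        rw [hpa] at hnorm
        have h5 : ‖2 * (1 - a)‖ ≤ 3 := by
          have : 2 * (1 - a) = 2 - 2 * a := by ring
          rw [this]
          refine (norm_sub_le _ _).trans ?_
          have : ‖(2:ℂ)‖ = 2 := by simp
          linarith
        linarith

/-- **Rigidity**: a two-sided family of entire functions of uniform exponential type over the
map `y ^ 2 + κ`, bounded on the real line, consists of constants. -/
theorem rigK {kap a : ℂ} (hkap : kap ≠ 0) (ha : a ^ 2 + kap = a) (ha2 : ‖2 * a‖ < 1)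
    (hk1 : ‖kap‖ ≤ 1) {W : ℤ → ℂ → ℂ} (hd : ∀ k, Differentiable ℂ (W k))
    (hg : ∃ R C : ℝ, ∀ k z, ‖W k z‖ ≤ R * Real.exp (C * |z.im|))
    (hs : ∀ k z, W (k + 1) (2 * z) = W k z ^ 2 + kap) :
    ∀ k z w, W k z = W k w := by
  obtain ⟨R, C0, hgr⟩ := hg
  set C := |C0| with hC
  have hC0 : 0 ≤ C := abs_nonneg _
  have hR : 0 ≤ R := by
    have := (norm_nonneg _).trans (hgr 0 0)
    simpa using this
  have hfam : Fam kap R C W := ⟨hd, fun k z => (hgr k z).trans (by
    have : C0 ≤ C := le_abs_self _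
    gcongr), hs⟩
  have hA : sSup (Val kap R C) ≤ 0 := by
    by_contra hcon
    push Not at hcon
    obtain ⟨V, hV, hVe⟩ := exists_ext hk1 hC0 ⟨W, hfam⟩ hcon
    have hExt : Ext kap R C (sSup (Val kap R C)) V := by
      refine ⟨hV, fun k z hz => ?_⟩
      have h1 := hV.G_zpow hk1 k (-k) z
      have h2 : 0 < ((2:ℂ) ^ (-k) * z).im := by
        have : (2:ℂ) ^ (-k) = (((2:ℝ) ^ (-k) : ℝ) : ℂ) := by push_cast; ring
        rw [this, Complex.im_ofReal_mul]
        positivity
      have h3 := hVe _ h2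
      rw [show k + -k = (0:ℤ) by ring] at h1
      rw [h1] at h3
      have h4 : ((2:ℂ) ^ (-k) * z).im = (2:ℝ) ^ (-k) * z.im := by
        have : (2:ℂ) ^ (-k) = (((2:ℝ) ^ (-k) : ℝ) : ℂ) := by push_cast; ring
        rw [this, Complex.im_ofReal_mul]
      rw [h4] at h3
      have h5 : (0:ℝ) < (2:ℝ) ^ (-k) := by positivity
      apply mul_left_cancel₀ h5.ne'
      linarith
    obtain ⟨V1, hV1, hs1, hnc⟩ := hExt.self hk1 hcon
    exact hnc (no_self hkap ha ha2 hV1 hs1)
  have hG : ∀ {W' : ℤ → ℂ → ℂ}, Fam kap R C W' → ∀ k z, 0 ≤ z.im → G kap (W' k z) ≤ 0 := by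
    intro W' h' k z hz
    rcases eq_or_lt_of_le hz with h0 | h0
    · have := h'.G_le hk1 hC0 k z
      rw [← h0] at this
      simpa using this
    · refine (G_le_A hk1 hC0 h' k h0).trans ?_
      exact mul_nonpos_of_nonpos_of_nonneg hA hz
  have hG2 : ∀ k z, G kap (W k z) ≤ 0 := by
    intro k z
    rcases le_total 0 z.im with h0 | h0
    · exact hG hfam k z h0
    · have := hG hfam.neg k (-z) (by rw [Complex.neg_im]; linarith)
      simpa using this
  intro k z w
  apply (hd k).apply_eq_apply_of_bounded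
  rw [isBounded_iff_forall_norm_le]
  refine ⟨2, ?_⟩
  rintro _ ⟨x, rfl⟩
  have h1 := (abs_le.1 (G_sub_posLog hk1 (W k x))).2
  have h2 := hG2 k x
  have h3 := norm_le_exp_of_posLog (norm_nonneg (W k x))
    (show posLog ‖W k x‖ ≤ Real.log 2 by linarith)
  rwa [Real.exp_log two_pos] at h3

end Pool.Agent.W_4481_h69
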