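import Mathlib

/-!
Limits of entire functions along an ultrafilter (Montel's theorem in the form needed here).
-/

open Filter Topology Set

namespace Pool.Agent.W_4481_h69

/-- eventually bounded entire functions are eventually Lipschitz on smaller balls -/
lemma lip_of_bdd {f : ℂ → ℂ} (hf : Differentiable ℂ f) {r B : ℝ}
    (hB : ∀ z, ‖z‖ ≤ r + 1 → ‖f z‖ ≤ B) {z w : ℂ} (hz : ‖z‖ ≤ r) (hw : ‖w‖ ≤ r) :
    ‖f z - f w‖ ≤ B * ‖z - w‖ := by
  have hder : ∀ x ∈ Metric.closedBall (0:ℂ) r, ‖deriv f x‖ ≤ B := by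
    intro x hx
    have hx' : ‖x‖ ≤ r := by simpa using hx
    have := Complex.norm_deriv_le_of_forall_mem_sphere_norm_le (c := x) (R := 1) (C := B)
      (f := f) one_pos hf.diffContOnCl (by
        intro y hy
        have hy1 : ‖y - x‖ = 1 := by simpa [dist_eq_norm] using hy
        apply hB
        have : y = x + (y - x) := by ring
        rw [this]
        exact (norm_add_le _ _).trans (by linarith))
    simpa using this
  exact (convex_closedBall (0:ℂ) r).norm_image_sub_le_of_norm_deriv_le
    (fun x _ => hf x) hder (by simpa using hw) (by simpa using hz)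

/-- **Montel along an ultrafilter.** -/
theorem ultra_entire {ι : Type*} (U : Ultrafilter ι) {F : ι → ℂ → ℂ}
    (hF : ∀ᶠ i in (U : Filter ι), Differentiable ℂ (F i)) {B : ℝ → ℝ}
    (hB : ∀ r : ℝ, ∀ᶠ i in (U : Filter ι), ∀ z, ‖z‖ ≤ r → ‖F i z‖ ≤ B r) :
    ∃ g : ℂ → ℂ, Differentiable ℂ g ∧ (∀ z, Tendsto (fun i => F i z) U (𝓝 (g z))) ∧
      (∀ r : ℝ, TendstoUniformlyOn F g U (Metric.closedBall 0 r)) ∧
      ∀ z, ‖g z‖ ≤ B ‖z‖ := by
  have h1 : ∀ z, ∃ w, ‖w‖ ≤ B ‖z‖ ∧ Tendsto (fun i => F i z) U (𝓝 w) := by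
    intro z
    obtain ⟨w, hw, hle⟩ := (isCompact_closedBall (0:ℂ) (B ‖z‖)).ultrafilter_le_nhds
      (U.map (fun i => F i z)) (by
        rw [le_principal_iff]
        show (fun i => F i z) ⁻¹' _ ∈ U
        filter_upwards [hB ‖z‖] with i hi
        simpa using hi z le_rfl)
    exact ⟨w, by simpa using hw, hle⟩
  choose g hgB hg using h1
  have hlip : ∀ r : ℝ, ∀ᶠ i in (U : Filter ι), ∀ z w, ‖z‖ ≤ r → ‖w‖ ≤ r →
      ‖F i z - F i w‖ ≤ B (r + 1) * ‖z - w‖ := by
    intro r
    filter_upwards [hF, hB (r + 1)] with i hi hi2 z w hz hw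
    exact lip_of_bdd hi hi2 hz hw
  have hglip : ∀ r : ℝ, ∀ z w, ‖z‖ ≤ r → ‖w‖ ≤ r → ‖g z - g w‖ ≤ B (r + 1) * ‖z - w‖ := by
    intro r z w hz hw
    refine le_of_tendsto ((hg z).sub (hg w)).norm ?_
    filter_upwards [hlip r] with i hi
    exact hi z w hz hw
  have hunif : ∀ r : ℝ, TendstoUniformlyOn F g U (Metric.closedBall 0 r) := by
    intro r
    rw [Metric.tendstoUniformlyOn_iff]
    intro ε hε
    by_contra hcon
    rw [← Ultrafilter.eventually_not] at hcon
    have hne : ∀ᶠ i in (U : Filter ι), ∃ z ∈ Metric.closedBall (0:ℂ) r, ε ≤ dist (g z) (F i z) := by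
      filter_upwards [hcon] with i hi
      push Not at hi
      exact hi
    classical
    set p : ι → ℂ := fun i => if h : ∃ z ∈ Metric.closedBall (0:ℂ) r, ε ≤ dist (g z) (F i z)
      then h.choose else 0 with hp
    have hp1 : ∀ᶠ i in (U : Filter ι), p i ∈ Metric.closedBall (0:ℂ) r ∧
        ε ≤ dist (g (p i)) (F i (p i)) := by
      filter_upwards [hne] with i hi
      have : p i = hi.choose := by rw [hp]; exact dif_pos hi
      rw [this]
      exact hi.choose_spec
    obtain ⟨q, hq, hle⟩ := (isCompact_closedBall (0:ℂ) r).ultrafilter_le_nhds (U.map p) (by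
      rw [le_principal_iff]
      show p ⁻¹' _ ∈ U
      filter_upwards [hp1] with i hi
      exact hi.1)
    have hpq : Tendsto p U (𝓝 q) := hle
    have hqr : ‖q‖ ≤ r := by simpa using hq
    have hlim : Tendsto (fun i => B (r + 1) * ‖p i - q‖ + ‖g q - F i q‖ + B (r + 1) * ‖p i - q‖)
        U (𝓝 (B (r + 1) * ‖q - q‖ + ‖g q - g q‖ + B (r + 1) * ‖q - q‖)) := by
      apply Tendsto.add
      · apply Tendsto.add
        · exact ((hpq.sub_const q).norm).const_mul _
        · exact ((hg q).const_sub (g q)).norm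
      · exact ((hpq.sub_const q).norm).const_mul _
    rw [sub_self, sub_self, norm_zero, mul_zero, add_zero, add_zero] at hlim
    obtain ⟨i, hi1, hi2, hi3⟩ := ((hlim.eventually (gt_mem_nhds hε)).and (hp1.and (hlip r))).exists
    have hpi : ‖p i‖ ≤ r := by simpa using hi2.1
    have h2 := hi2.2
    have h3 : dist (g (p i)) (F i (p i)) ≤
        B (r + 1) * ‖p i - q‖ + ‖g q - F i q‖ + B (r + 1) * ‖p i - q‖ := by
      rw [dist_eq_norm]
      have e : g (p i) - F i (p i) = (g (p i) - g q) + (g q - F i q) + (F i q - F i (p i)) := by ring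
      rw [e]
      refine (norm_add_le _ _).trans (add_le_add ((norm_add_le _ _).trans (add_le_add ?_ le_rfl)) ?_)
      · exact hglip r _ _ hpi hqr
      · have := hi3 q (p i) hqr hpi
        rwa [norm_sub_rev q (p i)] at this
    linarith
  have hdiff : Differentiable ℂ g := by
    intro z
    have hloc : TendstoLocallyUniformlyOn F g U (Metric.ball (0:ℂ) (‖z‖ + 1)) :=
      ((hunif (‖z‖ + 1)).mono Metric.ball_subset_closedBall).tendstoLocallyUniformlyOn
    have := hloc.differentiableOn (by
      filter_upwards [hF] with i hi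
      exact hi.differentiableOn) Metric.isOpen_ball
    exact (this z (by simp)).differentiableAt (Metric.isOpen_ball.mem_nhds (by simp))
  exact ⟨g, hdiff, hg, hunif, hgB⟩

/-- Montel along an ultrafilter, on an open set -/
theorem ultra_open {ι : Type*} (U : Ultrafilter ι) {Ω : Set ℂ} (hΩ : IsOpen Ω) {F : ι → ℂ → ℂ}
    (hF : ∀ᶠ i in (U : Filter ι), DifferentiableOn ℂ (F i) Ω) {B : ℝ}
    (hB : ∀ᶠ i in (U : Filter ι), ∀ z ∈ Ω, ‖F i z‖ ≤ B) :
    ∃ g : ℂ → ℂ, DifferentiableOn ℂ g Ω ∧ TendstoLocallyUniformlyOn F g U Ω := by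
  classical
  have h1 : ∀ z, ∃ w, z ∈ Ω → Tendsto (fun i => F i z) U (𝓝 w) := by
    intro z
    by_cases hz : z ∈ Ω
    · obtain ⟨w, -, hle⟩ := (isCompact_closedBall (0:ℂ) B).ultrafilter_le_nhds
        (U.map (fun i => F i z)) (by
          rw [le_principal_iff]
          show (fun i => F i z) ⁻¹' _ ∈ U
          filter_upwards [hB] with i hi
          simpa using hi z hz)
      exact ⟨w, fun _ => hle⟩
    · exact ⟨0, fun h => absurd h hz⟩
  choose g hg using h1
  have hloc : TendstoLocallyUniformlyOn F g U Ω := by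
    rw [Metric.tendstoLocallyUniformlyOn_iff]
    intro ε hε x hx
    obtain ⟨r, hr, hrΩ⟩ := Metric.isOpen_iff.1 hΩ x hx
    set ρ := r / 3 with hρ
    have hρ0 : 0 < ρ := by positivity
    have hsub : ∀ y, ‖y - x‖ ≤ 2 * ρ → y ∈ Ω := by
      intro y hy
      apply hrΩ
      rw [Metric.mem_ball, dist_eq_norm]
      have : 2 * ρ < r := by rw [hρ]; linarith
      linarith
    have hB0 : 0 ≤ B := by
      obtain ⟨i, hi⟩ := hB.exists
      exact (norm_nonneg _).trans (hi x hx)
    have hlip : ∀ᶠ i in (U : Filter ι), ∀ y, ‖y - x‖ ≤ ρ →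
        ‖F i y - F i x‖ ≤ B / ρ * ‖y - x‖ := by
      filter_upwards [hF, hB] with i hi hi2 y hy
      have hder : ∀ z ∈ Metric.closedBall x ρ, ‖deriv (F i) z‖ ≤ B / ρ := by
        intro z hz
        have hz' : ‖z - x‖ ≤ ρ := by simpa [dist_eq_norm] using hz
        apply Complex.norm_deriv_le_of_forall_mem_sphere_norm_le hρ0
        · apply DifferentiableOn.diffContOnCl
          apply hi.mono
          intro w hw
          have hw' : ‖w - z‖ ≤ ρ := by
            have := Metric.closure_ball_subset_closedBall hw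
            simpa [dist_eq_norm] using this
          apply hsub
          have : w - x = (w - z) + (z - x) := by ring
          rw [this]
          exact (norm_add_le _ _).trans (by linarith)
        · intro w hw
          have hw' : ‖w - z‖ = ρ := by simpa [dist_eq_norm] using hw
          apply hi2
          apply hsub
          have : w - x = (w - z) + (z - x) := by ring
          rw [this]
          exact (norm_add_le _ _).trans (by linarith)
      refine (convex_closedBall x ρ).norm_image_sub_le_of_norm_deriv_le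
        (fun z hz => hi.differentiableAt (hΩ.mem_nhds (hsub z ?_))) hder
        (by simpa using hρ0.le) (by simpa [dist_eq_norm] using hy)
      have hz' : ‖z - x‖ ≤ ρ := by simpa [dist_eq_norm] using hz
      linarith
    have hglip : ∀ y, ‖y - x‖ ≤ ρ → ‖g y - g x‖ ≤ B / ρ * ‖y - x‖ := by
      intro y hy
      refine le_of_tendsto ((hg y (hsub y (by linarith))).sub (hg x hx)).norm ?_
      filter_upwards [hlip] with i hi
      exact hi y hy
    set L := B / ρ with hL
    have hL0 : 0 ≤ L := by positivity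
    set δ := min ρ (ε / (3 * (L + 1))) with hδ
    have hδ0 : 0 < δ := by positivity
    have hδL : L * δ ≤ ε / 3 := by
      have : δ ≤ ε / (3 * (L + 1)) := min_le_right _ _
      calc L * δ ≤ (L + 1) * (ε / (3 * (L + 1))) := by gcongr; linarith
        _ = ε / 3 := by field_simp
    refine ⟨Metric.ball x δ ∩ Ω, inter_mem (mem_nhdsWithin_of_mem_nhds
      (Metric.ball_mem_nhds x hδ0)) self_mem_nhdsWithin, ?_⟩
    have hx3 : ∀ᶠ i in (U : Filter ι), ‖g x - F i x‖ < ε / 3 := by
      have := (hg x hx).eventually (Metric.ball_mem_nhds (g x) (by positivity : 0 < ε / 3))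
      filter_upwards [this] with i hi
      rw [norm_sub_rev]
      simpa [dist_eq_norm] using hi
    filter_upwards [hlip, hx3] with i hi hi2 y hy
    have hy1 : ‖y - x‖ < δ := by simpa [dist_eq_norm] using hy.1
    have hyρ : ‖y - x‖ ≤ ρ := hy1.le.trans (min_le_left _ _)
    have e : g y - F i y = (g y - g x) + (g x - F i x) + (F i x - F i y) := by ring
    rw [dist_eq_norm, e]
    have a1 := hglip y hyρ
    have a2 := hi y hyρ
    rw [norm_sub_rev] at a2
    have a3 : L * ‖y - x‖ ≤ ε / 3 := (mul_le_mul_of_nonneg_left hy1.le hL0).trans hδL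
    calc ‖(g y - g x) + (g x - F i x) + (F i x - F i y)‖
        ≤ ‖g y - g x‖ + ‖g x - F i x‖ + ‖F i x - F i y‖ := norm_add₃_le
      _ < ε / 3 + ε / 3 + ε / 3 := by linarith
      _ = ε := by ring
  exact ⟨g, hloc.differentiableOn hF hΩ, hloc⟩

end Pool.Agent.W_4481_h69
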